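import Mathlib
import Pool.Agent.helper46.DS.Gap2
import Pool.Agent.helper91.HZ.Main

/-!
# Project AX (MP_2e0e07_nt): the adelic dichotomy, definitions
-/

set_option autoImplicit false

namespace Pool.Agent.AX

open Matrix Polynomial Pool.Agent.GO Pool.Agent.AR Pool.Agent.RG Pool.Agent.HZ Pool.Agent.DS
  MeasureTheory NumberField

/-! ## Definitions used in the final statement -/

/-- The matrix representation obtained from `V` by a homomorphism of rings. -/
def mapHom {Γ R R' m : Type*} [Group Γ] [CommRing R] [CommRing R'] [Fintype m] [DecidableEq m]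
    (j : R →+* R') (V : Γ →* Matrix m m R) : Γ →* Matrix m m R' :=
  ((j.mapMatrix : Matrix m m R →+* Matrix m m R') : Matrix m m R →* Matrix m m R').comp V

/-- `red` is the reduction of the elements of absolute value at most `1` of `F` modulo those of
absolute value smaller than `1`, with values in `κ`. -/
structure IsRed {F κ : Type*} [NormedField F] [Field κ] (red : F → κ) : Prop where
  one : red 1 = 1
  add : ∀ x y : F, ‖x‖ ≤ 1 → ‖y‖ ≤ 1 → red (x + y) = red x + red y
  mul : ∀ x y : F, ‖x‖ ≤ 1 → ‖y‖ ≤ 1 → red (x * y) = red x * red y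
  zero_iff : ∀ x : F, ‖x‖ ≤ 1 → (red x = 0 ↔ ‖x‖ < 1)

/-- `t_v = a_v ^ 2 / d_v` for `Q v = X ^ 2 - a_v X + d_v`. -/
noncomputable def tv {Place E : Type*} [Field E] (Q : Place → E[X]) (v : Place) : E :=
  (Q v).coeff 1 ^ 2 / (Q v).coeff 0

/-- The set `S` of places is positive: the measures of the closures of the sets of Frobenius elements
at the places in `S` outside a finite set `T` are bounded below by a positive number which does not
depend on `T`. (By Chebotarev's theorem this holds for every set of positive upper density.) -/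
def Positive {Γ Place : Type*} [TopologicalSpace Γ] [MeasurableSpace Γ] (μ : Measure Γ)
    (frob : Place → Set Γ) (S : Set Place) : Prop :=
  ∃ δ : ENNReal, 0 < δ ∧ ∀ T : Set Place, T.Finite →
    δ ≤ μ (closure {s | ∃ v ∈ S, v ∉ T ∧ s ∈ frob v})

/-- On a positive set `S` of places the number `t_v = a_v ^ 2 / d_v`, as an element of the
`p`-adic field `F`, is determined up to finitely many values by congruences between the
polynomials `P i v`: for every `ε > 0` there is a modulus `M` such that among any `D + 1` places of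
`S` with the same `P i v` modulo `M`, two have values of `t_v` at distance at most `ε`. -/
def Determined {Γ Place E F : Type*} [TopologicalSpace Γ] [MeasurableSpace Γ] [Field E]
    [NormedField F] (μ : Measure Γ) (frob : Place → Set Γ) {r : ℕ} (P : Fin r → Place → ℤ[X])
    (Q : Place → E[X]) (ι : E →+* F) : Prop :=
  ∃ (S : Set Place) (D : ℕ), Positive μ frob S ∧ ∀ ε : ℝ, 0 < ε → ∃ M : ℕ, 0 < M ∧
    ∀ v : Fin (D + 1) → Place, (∀ a, v a ∈ S) →
      (∀ a b i k, (M : ℤ) ∣ (P i (v a)).coeff k - (P i (v b)).coeff k) →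
      ∃ a b, a ≠ b ∧ ‖ι (tv Q (v a)) - ι (tv Q (v b))‖ ≤ ε

/-- The common kernel of the `V q i` for all primes `q`. -/
noncomputable def kerAll {Γ : Type*} [Group Γ] {r : ℕ} {n : Fin r → ℕ}
    (V : (q : ℕ) → [Fact q.Prime] → (i : Fin r) → Γ →* Matrix (Fin (n i)) (Fin (n i)) ℤ_[q]) :
    Subgroup Γ :=
  ⨅ (q : ℕ) (_ : Fact q.Prime), kerV (V q)

/-- The product of the kernel of `ad (ρ j)` and of the common kernel of the `V q i`, for all primes
`q`, and of the `ad (ρ k)` for all `k ≠ j`. For Galois groups: the subgroup of the intersection of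
the field cut out by `ad (ρ j)` and the compositum of the fields cut out by all the others. -/
noncomputable def cross {Γ : Type*} [Group Γ] {r : ℕ} {n : Fin r → ℕ}
    (V : (q : ℕ) → [Fact q.Prime] → (i : Fin r) → Γ →* Matrix (Fin (n i)) (Fin (n i)) ℤ_[q])
    {J : Type*} {F : J → Type*} [∀ j, Field (F j)] (ρ : ∀ j, Γ →* Matrix (Fin 2) (Fin 2) (F j))
    (j : J) : Subgroup Γ :=
  (kerAll V ⊓ ⨅ k : {k : J // k ≠ j}, adKer (ρ k.1)) ⊔ adKer (ρ j)

/-! ## Auxiliary definitions -/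

/-- `K` is the kernel of a `q`-layer of degree at most `m`: a representation `rr` over an
algebraically closed field of characteristic `q` and open normal subgroups `L 0 ≥ L 1 ≥ ..` with
intersection `K`, contained in the kernel of `rr`, such that every element of the kernel of `rr` has
a power with exponent a power of `q` in `L s`, for every `s`. -/
def HasLayer {Γ : Type} [Group Γ] [TopologicalSpace Γ] (q m : ℕ) (K : Subgroup Γ) : Prop :=
  ∃ (κ : Type) (_ : Field κ) (_ : IsAlgClosed κ) (_ : CharP κ q) (m' : ℕ)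
    (rr : Γ →* Matrix (Fin m') (Fin m') κ) (L : ℕ → Subgroup Γ), m' ≤ m ∧
    (∀ s, IsOpen (L s : Set Γ)) ∧ (∀ s, (L s).Normal) ∧ Antitone L ∧ (∀ s, ∀ g ∈ L s, rr g = 1) ∧
    (∀ g, rr g = 1 → ∀ s, ∃ k, g ^ q ^ k ∈ L s) ∧ K = ⨅ s, L s

/-- `K` is an intersection of open normal subgroups `L 0 ≥ L 1 ≥ ..` such that every element of `M`
has a power with exponent a power of `p` in `L s`, for every `s`. -/
def HasPPart {Γ : Type} [Group Γ] [TopologicalSpace Γ] (p : ℕ) (M K : Subgroup Γ) : Prop :=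
  ∃ L : ℕ → Subgroup Γ, (∀ s, IsOpen (L s : Set Γ)) ∧ (∀ s, (L s).Normal) ∧ Antitone L ∧
    (∀ g ∈ M, ∀ s, ∃ k, g ^ p ^ k ∈ L s) ∧ K = ⨅ s, L s

/-- the commutator of `x ^ L` and `y ^ L` -/
def cmt {G : Type*} [Group G] (L : ℕ) (x y : G) : G := x ^ L * y ^ L * (x ^ L)⁻¹ * (y ^ L)⁻¹

/-- the matrix `(1 1; 0 1)` -/
def mu (κ : Type*) [Field κ] : Matrix (Fin 2) (Fin 2) κ := !![1, 1; 0, 1]

/-- the matrix `(1 0; 1 1)` -/
def mw (κ : Type*) [Field κ] : Matrix (Fin 2) (Fin 2) κ := !![1, 0; 1, 1]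

/-- The image of `Z` under `S` contains, up to scalars, the conjugates by one invertible matrix `γ`
of `(1 1; 0 1)` and `(1 0; 1 1)`. -/
def ContainsPSL {Γ κ : Type*} [Group Γ] [Field κ] (S : Γ →* Matrix (Fin 2) (Fin 2) κ)
    (Z : Subgroup Γ) : Prop :=
  ∃ γ γ' : Matrix (Fin 2) (Fin 2) κ, γ * γ' = 1 ∧ γ' * γ = 1 ∧
    (∃ z ∈ Z, ∃ c : κ, S z = c • (γ * mu κ * γ')) ∧ ∃ z ∈ Z, ∃ c : κ, S z = c • (γ * mw κ * γ')

theorem mem_adKer {Γ F : Type*} [Group Γ] [Field F] (ρ : Γ →* Matrix (Fin 2) (Fin 2) F) (g : Γ) :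
    g ∈ adKer ρ ↔ ∃ c : F, ρ g = c • (1 : Matrix (Fin 2) (Fin 2) F) := Iff.rfl

theorem hom_mul_inv' {Γ R m : Type*} [Group Γ] [CommRing R] [Fintype m] [DecidableEq m]
    (ρ : Γ →* Matrix m m R) (g : Γ) : ρ g * ρ g⁻¹ = 1 := by
  rw [← map_mul, mul_inv_cancel, map_one]

theorem hom_inv_mul' {Γ R m : Type*} [Group Γ] [CommRing R] [Fintype m] [DecidableEq m]
    (ρ : Γ →* Matrix m m R) (g : Γ) : ρ g⁻¹ * ρ g = 1 := by
  rw [← map_mul, inv_mul_cancel, map_one]

instance adKer_normal {Γ F : Type*} [Group Γ] [Field F] (ρ : Γ →* Matrix (Fin 2) (Fin 2) F) :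
    (adKer ρ).Normal := by
  constructor
  rintro g ⟨c, hc⟩ h
  refine ⟨c, ?_⟩
  rw [map_mul, map_mul, hc, Matrix.mul_smul, mul_one, Matrix.smul_mul, hom_mul_inv']

/-- `g` is in `Z ⊔ adKer ρ` iff `ρ g` is a multiple of `ρ z` for some `z` in `Z`. -/
theorem mem_sup_adKer {Γ F : Type*} [Group Γ] [Field F] (ρ : Γ →* Matrix (Fin 2) (Fin 2) F)
    (Z : Subgroup Γ) (g : Γ) :
    g ∈ Z ⊔ adKer ρ ↔ ∃ z ∈ Z, ∃ c : F, ρ g = c • ρ z := by
  rw [Subgroup.mem_sup_of_normal_right]
  constructor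
  · rintro ⟨z, hz, k, ⟨c, hc⟩, rfl⟩
    exact ⟨z, hz, c, by rw [map_mul, hc, Matrix.mul_smul, mul_one]⟩
  · rintro ⟨z, hz, c, hc⟩
    refine ⟨z, hz, z⁻¹ * g, ⟨c, ?_⟩, by rw [mul_inv_cancel_left]⟩
    rw [map_mul, hc, Matrix.mul_smul, hom_inv_mul']

end Pool.Agent.AX
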