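import Pool.Agent.helper44.AX.Defs
import Pool.Agent.helper55.FLD.Spec

/-!
# Project AX (MP_2e0e07_nt): the adelic dichotomy, blocks L (lifting), F (one prime), Y (layers), T

Page: /team-store/H6_MP_2e0e07_nt_ADELIC_helper44.md. Blocks D, C, R: Pool/Agent/helper64/AX/SpecD.lean.

Rules: prove `theorem X : X_stmt` (or `theorem X (h1 : Y_stmt) .. : X_stmt` with the rows named in
the docstring) in `Pool/Agent/<you>/AX/X.lean`, importing `Pool.Agent.helper44.AX.SpecA`, namespace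
`Pool.Agent.AX`, auxiliary lemmas prefixed with `X_`. No double quotes, no convert / congr!, no
native_decide.

Useful: `mem_sup_adKer` (`g ∈ Z ⊔ adKer ρ ↔ ∃ z ∈ Z, ∃ c, ρ g = c • ρ z`), `hom_mul_inv'`,
`hom_inv_mul'`; `Pool.Agent.AR.ad0`, `em_ad0`, `ad0_irred`, `SI.restrict`, `SI.irred`,
`SI_of_open`, `schur`; FLD: `Dv`, `IsLog`, `TT`, `Lat` and the rows of `Pool.Agent.helper55.FLD.Spec`
(all proved, `Pool.Agent.helper55.FLD.All`).
-/

set_option autoImplicit false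

namespace Pool.Agent.AX

open Matrix Polynomial Topology Filter Pool.Agent.GO Pool.Agent.AR Pool.Agent.RG Pool.Agent.HZ
  Pool.Agent.DS Pool.Agent.FLD MeasureTheory NumberField

/-! ## Block L: lifting from the residual representation -/

/-- **Row LSL** (short; pure algebra). Notation: `X = (h, b, c)` is the matrix `!![h, b; c, -h]`;
`u = mu κ`, `u' = !![1, -1; 0, 1]`, `w = mw κ`, `w' = !![1, 0; -1, 1]`.
Proof. `u X u' - X = (c, -2h - c, 0)` and `w X w' - X = (-b, 0, 2h - b)` in this notation.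
(0) If `2 • Y ∈ R` for a matrix `Y` then `Y ∈ R`: `p • Y = 0` and `p = 2 k + 1`, so
`Y = (p : ℕ) • Y - k • (2 • Y)` up to sign; in particular `- Y ∈ R` if `Y ∈ R` (subgroup).
(1) For `X ∈ W`: `X' = (c, -2h - c, 0) ∈ R ≤ W`; apply the first difference to `X'`:
`(0, -2c, 0) ∈ R`, so `(0, c, 0) ∈ R`. In the same way `(-b, 0, 2h - b) ∈ R`, and the second difference
of it is `(0, 0, -2b)`, so `(0, 0, b) ∈ R`.
(2) For `X ∈ W`, `Y = (0, c, 0) ∈ R ≤ W`. (1) for `Y` (its `b` is `c`): `(0, 0, c) ∈ R`; the second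
difference of `Y` is `(-c, 0, -c) ∈ R`, so `(c, 0, 0) ∈ R`. So all of `(c, 0, 0)`, `(0, c, 0)`,
`(0, 0, c)` are in `R`. The same for `b`, starting from `(0, 0, b) ∈ R ≤ W` (its `c` is `b`): by (1)
`(0, b, 0) ∈ R`, the first difference is `(b, -b, 0)`, so `(b, 0, 0) ∈ R`.
(3) (2) applied to `X' ∈ W`, whose `b` is `-2h - c`: `(-2h - c, 0, 0) ∈ R`, with `(c, 0, 0) ∈ R`:
`(-2h, 0, 0) ∈ R`, so `(h, 0, 0) ∈ R`. Sum: `X = (h, 0, 0) + (0, b, 0) + (0, 0, c) ∈ R`. -/
def LSL_stmt : Prop := ∀ (p : ℕ) [Fact p.Prime], p ≠ 2 → ∀ (κ : Type) [Field κ] [CharP κ p]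
  (R W : AddSubgroup (Matrix (Fin 2) (Fin 2) κ)), R ≤ W → (∀ X ∈ W, X.trace = 0) →
  (∀ X ∈ W, mu κ * X * !![1, -1; 0, 1] - X ∈ R) → (∀ X ∈ W, mw κ * X * !![1, 0; -1, 1] - X ∈ R) →
  W ≤ R

/-- **Row LFT** (medium-long; from LSL). `Γ` compact, `ρ` continuous with entries of norm `≤ 1`, `S` its
reduction, `Z` closed and normal, `S(Z)` contains conjugates of `mu`, `mw` up to scalars. Then an
element `g` with `S g` scalar is in `Z ⊔ adKer ρ`.
Proof. `F` is ultrametric (see row LA of FLD: `IsUltrametricDist.isUltrametricDist_of_forall_norm_natCast_le_one`)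
and proper (`FiniteDimensional.proper ℚ_[p] F`). Write `|A|` for the maximum of the norms of the entries of a
matrix (or work with `∀ a b, ‖A a b‖ ≤ d`). For `|A| ≤ 1`, `|B| ≤ 1`: `|A B| ≤ |A| |B|`. `det ρ(g)`
has norm 1 (it and its inverse have norm `≤ 1`).
(1) Let `S g` be scalar. The function `(z, c) ↦ |ρ(z⁻¹ g) - c|` on the compact set
`Z × {‖c‖ ≤ 1}` has a minimum `d`, at `(z, c)`. `d < 1`: for `z = 1`, `c = ρ(g) 0 0` all entries of
`ρ(g) - c` have reduction `0` (`S g` scalar), so norm `< 1`. If `d = 0`: `ρ g = c • ρ z`, done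
(`mem_sup_adKer`). Let `d > 0`, `h = z⁻¹ g`; then `‖c‖ = 1` (`det`), `ρ h = c (1 + Y)` with `|Y| = d`
(norm `≤ d` and one entry of norm `d`; let `π ∈ F` be that entry, `‖π‖ = d`).
(2) For `x ∈ Γ` say that `x` has the leading term `X ∈ M_2(κ)` if for some `c'` with `‖c'‖ = 1` and `Y'`:
`ρ x = c' (1 + Y')`, `|Y'| ≤ d`, and `X` is the reduction of `π⁻¹ (Y' - (tr Y' / 2))`
(entries of norm `≤ 1`; `2` is a unit as `p ≠ 2`). `W` = the set of the leading terms of the elements of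
`Γ`, `R` = of the elements of `Z`. As `d² < d`, products of elements give sums of leading terms, inverses
give the negative: `W`, `R` are additive subgroups, of matrices of trace `0`, `R ≤ W`. If
`x` has the leading term `X` and `y ∈ Γ`, then `y x y⁻¹` has the leading term `S(y) X S(y⁻¹)`; if `y ∈ Z`,
then `y x y⁻¹ x⁻¹ ∈ Z` (it is `y (x y x⁻¹)⁻¹`) has the leading term `S(y) X S(y⁻¹) - X`, which is in `R`.
(3) Let `γ, γ', z₁, z₂` be as in `ContainsPSL`. The subgroups `W' = γ' W γ`, `R' = γ' R γ` satisfy the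
hypotheses of LSL: `mu (γ' X γ) mu⁻¹ = γ' S(z₁) X S(z₁⁻¹) γ` (`S(z₁⁻¹)` is the inverse of `S z₁`,
`c⁻¹ γ mu⁻¹ γ'`). So `W = R`.
(4) `h` has the leading term of `Y`, in `W = R`: there is `z' ∈ Z`, `ρ z' = c' (1 + Y')` with
`|Y' - Y - s| < d` for a scalar `s`, `‖s‖ ≤ d` (the difference of the halves of the traces). Then
`(1 + Y)(1 + Y')⁻¹ = 1 - s + (terms of norm < d)`, so `ρ(h z'⁻¹)` has distance `< d` to the scalar
`c c'⁻¹ (1 - s)`. And `h z'⁻¹ = z''⁻¹ g` with `z'' = g z' g⁻¹ z ∈ Z`: contradiction to the choice of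
`d`. (The set of values being a maximum of finitely many norms, the strict inequality is clear.) -/
def LFT_stmt : Prop := ∀ (p : ℕ) [Fact p.Prime], p ≠ 2 → ∀ (Γ : Type) [Group Γ]
  [TopologicalSpace Γ] [IsTopologicalGroup Γ] [CompactSpace Γ] (F κ : Type) [NormedField F]
  [NormedAlgebra ℚ_[p] F] [FiniteDimensional ℚ_[p] F] [Field κ] [CharP κ p] (red : F → κ),
  IsRed red → ∀ (ρ : Γ →* Matrix (Fin 2) (Fin 2) F) (S : Γ →* Matrix (Fin 2) (Fin 2) κ),
  Continuous ρ → (∀ g a b, ‖ρ g a b‖ ≤ 1) → (∀ g, S g = (ρ g).map red) →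
  ∀ Z : Subgroup Γ, Z.Normal → IsClosed (Z : Set Γ) → ContainsPSL S Z → adKer S ≤ Z ⊔ adKer ρ

/-! ## Block Y: layers -/

/-- **Row YV** (medium). The kernel of a continuous representation over `ℤ_[q]` is the kernel of a
`q`-layer. Proof. `κ = AlgebraicClosure (ZMod q)`, `m' = n`, `rr = V` modulo `q`
(`mapHom ((algebraMap (ZMod q) κ).comp PadicInt.toZMod) V`), `L s` = the kernel of
`mapHom (PadicInt.toZModPow (s + 1)) V`: open (continuity of `V`, and `{x | toZModPow (s+1) x = a}` is open: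
`ZMod` is discrete and `PadicInt.toZModPow` is locally constant: its kernel is the ideal
generated by `q ^ (s+1)`, a closed ball of positive radius; or: `g ∈ L s` iff
`‖V g a b - 1 a b‖ ≤ q ^ (-(s+1))` for all `a b`, `PadicInt.norm_le_pow_iff_mem_span_pow`,
`PadicInt.ker_toZModPow`), normal (kernels), antitone. `g ∈ L s → rr g = 1` (`V g - 1` has entries
divisible by `q`). If `rr g = 1` then `V g = 1 + q X`, and by induction `V g ^ q ^ k = 1 + q ^ (k+1) X_k`:
`(1 + q^j X)^q = 1 + q^(j+1) (..)` for `j ≥ 1` (`add_pow` for the commuting elements `1`, `q^j X`: all terms after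
`1` are divisible by `q^(j+1)`). `⨅ s, L s = ker V`: a `q`-adic integer divisible by all powers of `q` is `0`
(`PadicInt.ext_of_toZModPow`). -/
def YV_stmt : Prop := ∀ (q n m : ℕ) [Fact q.Prime], n ≤ m → ∀ (Γ : Type) [Group Γ]
  [TopologicalSpace Γ] (V : Γ →* Matrix (Fin n) (Fin n) ℤ_[q]), Continuous V →
  HasLayer q m V.ker

/-- **Row YP** (short-medium; as YV). `L s` = the intersection over `i` of the kernels of
`mapHom (PadicInt.toZModPow (s + 1)) (V i)`; an element `g` of the kernel of all `V i` modulo `p` has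
`g ^ p ^ k` in `L s` for `k = s`. -/
def YP_stmt : Prop := ∀ (p r : ℕ) [Fact p.Prime] (n : Fin r → ℕ) (Γ : Type) [Group Γ]
  [TopologicalSpace Γ] (V : (i : Fin r) → Γ →* Matrix (Fin (n i)) (Fin (n i)) ℤ_[p]),
  (∀ i, Continuous (V i)) →
  HasPPart p (kerV fun i => mapHom (PadicInt.toZMod (p := p)) (V i)) (kerV V)

/-- **Row YA** (medium). The kernel of `ad ρ`, `ρ` integral of dimension two over a finite extension of
`ℚ_p`, is the kernel of a `p`-layer of degree `3`. Proof. `S = ` the reduction of `ρ` (a homomorphism by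
`IsRed`: entries of products are sums of products of elements of norm `≤ 1`; build it), `rr = ad0 S`.
`L s = {g | ∃ c : F, ∀ a b, ‖ρ g a b - c • 1‖ ≤ p ^ (-(s+1))}`, equivalently `‖ρ g 0 1‖`, `‖ρ g 1 0‖`,
`‖ρ g 0 0 - ρ g 1 1‖ ≤ p ^ (-(s+1))`: a subgroup (`F` is ultrametric, `ρ` is integral, the determinants have norm
`1`), normal, open (it contains a neighbourhood of each of its points), antitone, with intersection `adKer ρ`
(all three numbers are `0`). `g ∈ L s → ad0 S g = 1`: `S g` is scalar (`em_ad0`: `ad0 S g` acts by conjugation on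
the matrices of trace `0`; `co_em`). Conversely `ad0 S g = 1` gives that `S g` commutes with `!![0,1;0,0]` and
`!![0,0;1,0]`, so it is scalar; then `ρ g = c (1 + X)`, `‖c‖ = 1`, `|X| < 1`, and
`(1 + X)^(p^k) → 1`: `(1 + X)^p = 1 + X₁` with `|X₁| ≤ max (|p| |X|) (|X|^p)` (`add_pow`), so the norms
`|X_k|` tend to `0`: with `λ = max |p| |X| < 1`, `|X₁| ≤ λ |X|`. -/
def YA_stmt : Prop := ∀ (p m : ℕ) [Fact p.Prime], 3 ≤ m → ∀ (Γ : Type) [Group Γ]
  [TopologicalSpace Γ] [IsTopologicalGroup Γ] (F κ : Type) [NormedField F]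
  [NormedAlgebra ℚ_[p] F] [FiniteDimensional ℚ_[p] F] [Field κ] [IsAlgClosed κ] [CharP κ p]
  (red : F → κ), IsRed red → ∀ (ρ : Γ →* Matrix (Fin 2) (Fin 2) F), Continuous ρ →
  (∀ g a b, ‖ρ g a b‖ ≤ 1) → HasLayer p m (adKer ρ)

/-! ## Block F: one prime -/

/-- **Row SIM** (medium-long; from the rows of FLD; adaptation of `helper55/FLD/FIN.lean` and
`helper19/FLD/CB.lean`, authors first). A closed normal subgroup `Z` is trivial up to finite index or
of finite index, under `ad ρ`. Proof. Use FLD with `n = Fin 0` (or `Empty`): `B = M_0(ℚ_p) × M_2(F)`,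
`R` from LA, `V = 1` the trivial representation (`Matrix (Fin 0) (Fin 0)` is a one-element ring),
`Φ = V.prod ρ`; `U` from OG with `k = 2`, `G = U`, `G' = Z ⊓ U` (both compact). `T = TT` for `Φ`
restricted to `G`, `T' ⊆ T` the same for `G'`. `b`, `n` = the `ℚ_p`-spans of the traceless parts `tl x.2`,
`x ∈ T`, resp. `T'`: both stable under conjugation by `ρ g`, `g ∈ U` (for `T'`: if `Φ h` approximates `1 + p^i X`
then `Φ (g h g⁻¹)` approximates `1 + p^i Φ g X Φ g⁻¹`, `Z` is normal). As in `FIN`: ideals (ID), IR, so AL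
applies if `n ≠ 0` and gives `n = b`.
Case `n = 0`: for `h ∈ G'`, LG (2) gives a logarithm `X` of `Φ h`, in `T'` (TP (1) for the group `G'`), with
`tl X.2 = 0`; by AD (as in the row NZ) `ρ h` commutes with all matrices, so it is scalar:
`Z ⊓ U ≤ adKer ρ`, and `Z ⊓ U` has finite index in `Z` (`U` is open, `Γ` compact).
Case `n = b`: `j₀` from RE for `G`, `j₀'` from RE for `G'`. BD for `{tl x.2 | x ∈ T}` (compact, TP (5)) and
`{tl x.2 | x ∈ T'}`: `k` such that for `x ∈ T` there is `x' ∈ T'` with `p^k tl x.2 = tl x'.2`. Let `g ∈ G` with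
`Dv (j₀ + (k + j₀')) (Φ g - 1)`: RE (2): `IsLog (Φ g) (p^(k + j₀') x)`, `x ∈ T`; `x'` as above, RE (1) for `G'`: `h ∈ G'` with
`IsLog (Φ h) (p^(j₀') x')`. The traceless parts of the two logarithms agree, AD and TL: `ρ g = c • ρ h`. So the
open subgroup of these `g` (OG with `k = j₀ + (k + j₀')`, intersected with `U`) is in `Z ⊔ adKer ρ`, which
therefore has finite index. -/
def SIM_stmt : Prop := ∀ (p : ℕ) [Fact p.Prime] (Γ : Type) [Group Γ] [TopologicalSpace Γ]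
  [IsTopologicalGroup Γ] [CompactSpace Γ] (F Ω : Type) [NormedField F] [NormedAlgebra ℚ_[p] F]
  [FiniteDimensional ℚ_[p] F] [Field Ω] [IsAlgClosed Ω] [Algebra F Ω]
  (ρ : Γ →* Matrix (Fin 2) (Fin 2) F), Continuous ρ →
  SI (((algebraMap F Ω).mapMatrix : Matrix (Fin 2) (Fin 2) F →+* _).toMonoidHom.comp ρ) →
  ∀ Z : Subgroup Γ, Z.Normal → IsClosed (Z : Set Γ) →
    (adKer ρ).relIndex Z ≠ 0 ∨ (Z ⊔ adKer ρ).FiniteIndex

/-- The law for finite `p`-groups (row C4 of helper64/AX/SpecR, with `cmt`). -/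
def C4c_stmt : Prop := ∀ (p m : ℕ) [Fact p.Prime] (R : Type) [Group R] [Finite R],
  IsPGroup p R → ∀ (κ : Type) [Field κ] [IsAlgClosed κ], (p : κ) ≠ 0 →
  ∀ σ : R →* Matrix (Fin m) (Fin m) κ, ∀ x y : R, σ (cmt m.factorial x y) = 1

/-- Compactness (row R2 of helper64/AX/SpecR). -/
def R2c_stmt : Prop := ∀ (Γ : Type) [Group Γ] [TopologicalSpace Γ] [IsTopologicalGroup Γ]
  [CompactSpace Γ] (A : Type) (L : A → ℕ → Subgroup Γ), (∀ a s, IsOpen (L a s : Set Γ)) →
  (∀ a, Antitone (L a)) → ∀ M N₀ : Subgroup Γ, IsClosed (M : Set Γ) → IsOpen (N₀ : Set Γ) →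
  (M ⊓ ⨅ a, ⨅ s, L a s) ≤ N₀ → ∃ (A₀ : Finset A) (s₀ : ℕ), (M ⊓ ⨅ a ∈ A₀, L a s₀) ≤ N₀

/-- **Row LPW** (medium): `theorem LPW (hC4 : C4c_stmt) (hR2 : R2c_stmt) : LPC_stmt`. `M` closed
subgroup, layers of residue characteristics `≠ p` with `M ⊓ ⨅ K a ≤ N₀`, `N₀` open normal, every element of
`M` has a power with exponent a power of `p` in `N₀`. Then `cmt m! x y ∈ N₀` for `x, y ∈ M`.
Proof. Choose the data of the layers (`κ a`, `m' a ≤ m`, `rr a`, `L a`). `M ⊓ ⨅ a s, L a s ≤ N₀`, so by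
R2 there are `A₀` finite, `s₀` with `N₁ := M ⊓ ⨅ a ∈ A₀, L a s₀ ≤ N₀`. `D` = the group `M` modulo
`N₁` (normal in `M`, of finite index as it is open in `M`, compactness; e.g. `D = M ⧸ (N₁.subgroupOf M)`). `f : D → Γ ⧸ N₀`; its range is
a `p`-group. Let `P` be a Sylow `p`-subgroup of `D`; `f` maps `P` onto the range of `f`: the index of
`f(P)` in the range divides the index of `P` in `D`, so it is prime to `p`, and it is a power of `p`. For
`x, y ∈ M` let `x', y' ∈ P` have the same images under `f`. `z = cmt m! x' y' ∈ P`. For `a ∈ A₀`: `rr a`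
restricted to `M` factors through `D` (`L a s₀ ≤ ker`), and on `P` we have `rr a z = 1` by the law C4 for `P`, `κ a`
(`(p : κ a) ≠ 0` as `q a ≠ p`) (C4 is for `m' a`: as `(m' a)! ∣ m!`, `x'^(m!) = (x'^(m!/(m' a)!))^((m' a)!)`). Let
`g ∈ M` represent `z`: `rr a g = 1`, so `g ^ (q a) ^ k ∈ L a s₀` for some `k`; also `z ^ p ^ l = 1` for some `l`, so
`g ^ p ^ l ∈ N₁ ≤ L a s₀`; as `q a ^ k` and `p ^ l` are coprime, `g ∈ L a s₀`. So `g ∈ N₁`, `z = 1`,
and `f` of it: `cmt m! x y ∈ N₀`. -/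
def LPC_stmt : Prop := ∀ (p m : ℕ) [Fact p.Prime] (Γ : Type) [Group Γ] [TopologicalSpace Γ]
  [IsTopologicalGroup Γ] [CompactSpace Γ] (M : Subgroup Γ), IsClosed (M : Set Γ) →
  ∀ (A : Type) (q : A → ℕ) (K : A → Subgroup Γ),
    (∀ a, (q a).Prime ∧ q a ≠ p ∧ HasLayer (q a) m (K a)) →
    ∀ N₀ : Subgroup Γ, N₀.Normal → IsOpen (N₀ : Set Γ) → (∀ g ∈ M, ∃ k, g ^ p ^ k ∈ N₀) →
    (M ⊓ ⨅ a, K a) ≤ N₀ → ∀ x ∈ M, ∀ y ∈ M, cmt m.factorial x y ∈ N₀

/-- **Row LWC** (medium; pure algebra). A strongly irreducible representation of dimension two in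
characteristic `0` does not satisfy the law `cmt L x y` scalar. Proof. Suppose it does. (1) For `x ∈ Γ` let
`X = ρ (x ^ L)`. For `g ∈ Γ` let `Y = ρ g X ρ g⁻¹ = ρ ((g x g⁻¹) ^ L)`. By the law
`X Y = c Y X`; determinants: `c² = 1`; so `X Y X⁻¹ = c Y`. If `tr X ≠ 0`: `tr Y = tr X ≠ 0` and traces give
`c = 1`. So all conjugates `Y` commute with `X`. If `X` is not scalar, the matrices commuting with `X` are the
combinations of `1` and `X`; so with `X₀ = X - (tr X / 2) • 1 ≠ 0`, of trace `0`, every `ρ g X₀ ρ g⁻¹` is a multiple of `X₀`: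
`em`, `co`: the line of `co X₀` is stable under `ad0 ρ`, contradiction to `ad0_irred` (dimension `3`). So: `X` is
scalar or `tr X = 0`, and then `X² = -det X` is scalar. Hence `ρ (x ^ (2 L))` is scalar for all `x`.
(2) So `ad0 ρ (x) ^ (2 L) = 1` for all `x`: the eigenvalues are roots of unity of order dividing `2 L`, so `tr (ad0 ρ x)` is in a
finite set `E`. (3) Burnside: `τ = ad0 ρ` is irreducible over the algebraically closed `Ω`, so the matrices
`τ g` span `M_3(Ω)` (`GO`/`AR` have this: see `Pool/Agent/helper6/GO/Irr.lean`, or Mathlib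
`Algebra` density theorems). Choose `g_1, .., g_9` with `τ g_i` a basis. The map
`g ↦ (tr (τ (g g_i)))_i` has finitely many values, and determines `τ g` (trace form nondegenerate). So
`τ(Γ)` is finite, `τ.ker` has finite index, `ρ` restricted to it consists of scalars (commutes with all
matrices of trace `0`), which is not irreducible: contradiction to `SI`. -/
def LWC_stmt : Prop := ∀ (Ω : Type) [Field Ω] [IsAlgClosed Ω] [CharZero Ω] (Γ : Type) [Group Γ]
  (ρ : Γ →* Matrix (Fin 2) (Fin 2) Ω), SI ρ → ∀ L : ℕ, 0 < L →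
  ∃ x y : Γ, cmt L x y ∉ adKer ρ

/-- **Row FIX** (medium-long): `theorem FIX (hSIM : SIM_stmt) (hLPC : LPC_stmt) (hLWC : LWC_stmt) :
FIX_stmt`. `M` closed normal with `M ⊔ adKer ρ` of finite index; layers of residue
characteristics `≠ p`; then `(M ⊓ ⨅ K a) ⊔ adKer ρ` has finite index.
Proof. `Z = M ⊓ ⨅ K a`: closed and normal (the `K a` are intersections of open normal subgroups; open
subgroups are closed). By SIM, otherwise `(adKer ρ).relIndex Z ≠ 0`. Let `z_1, .., z_k` represent the cosets of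
`adKer ρ ⊓ Z` in `Z` which are not in `adKer ρ`. The line `F • ρ z_i` is closed and does not contain `1`: let `ε > 0` be
smaller than the distances (`‖·‖` of entries) of `1` to these lines and `ε ≤ p^(-1)`, `ε < 1`. `U = {g | all entries of ρ g - 1 have norm ≤ ε}`
is an open subgroup of `Γ` (ultrametric, `ρ` integral), and `Z ⊓ U ≤ adKer ρ`: for `z ∈ Z ⊓ U`, `ρ z = c • ρ z_i` is
impossible. `M' = M ⊓ U`, closed. For `s : ℕ` let `L_s` = the open normal subgroup
`{g | ‖ρ g 0 1‖, ‖ρ g 1 0‖, ‖ρ g 0 0 - ρ g 1 1‖ ≤ p^(-s)}` (as in YA). For `g ∈ M'` some `g ^ p ^ k ∈ L_s` (`ρ g = 1 + X`, `|X| < 1`).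
`M' ⊓ ⨅ K a ≤ Z ⊓ U ≤ adKer ρ ≤ L_s`. LPW: `cmt m! x y ∈ L_s` for `x, y ∈ M'` and all `s`, so it is in
`adKer ρ`. `Γ₁ = M' ⊔ adKer ρ` has finite index (`M' = M ⊓ U` has finite index in `M`: `U` has finite index in `Γ`;
`Subgroup.relIndex` calculus, or: finitely many cosets). For `x, y ∈ Γ₁`, `ρ x = c • ρ x'`, `ρ y = c' • ρ y'` with
`x', y' ∈ M'`, so `cmt m! x y ∈ adKer ρ` too. LWC for the base change to `Ω` of `ρ` restricted to `Γ₁`
(`SI.restrict`): contradiction. (An element is in `adKer ρ` iff it is in `adKer` of the base change: entries.) -/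
def FIX_stmt : Prop := ∀ (p m : ℕ) [Fact p.Prime] (Γ : Type) [Group Γ] [TopologicalSpace Γ]
    [IsTopologicalGroup Γ] [CompactSpace Γ] (F Ω : Type) [NormedField F] [NormedAlgebra ℚ_[p] F]
    [FiniteDimensional ℚ_[p] F] [Field Ω] [IsAlgClosed Ω] [CharZero Ω] [Algebra F Ω]
    (ρ : Γ →* Matrix (Fin 2) (Fin 2) F), Continuous ρ → (∀ g a b, ‖ρ g a b‖ ≤ 1) →
    SI (bc (algebraMap F Ω) ρ) →
    ∀ M : Subgroup Γ, M.Normal → IsClosed (M : Set Γ) → (M ⊔ adKer ρ).FiniteIndex →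
    ∀ (A : Type) (q : A → ℕ) (K : A → Subgroup Γ),
    (∀ a, (q a).Prime ∧ q a ≠ p ∧ HasLayer (q a) m (K a)) →
    ((M ⊓ ⨅ a, K a) ⊔ adKer ρ).FiniteIndex

/-! ## Block T: congruences -/

/-- The invariant `t = tr² / det`. -/
noncomputable def tt {Γ F : Type*} [Group Γ] [Field F] (ρ : Γ →* Matrix (Fin 2) (Fin 2) F)
    (g : Γ) : F := (ρ g).trace ^ 2 / (ρ g).det

/-- **Row NUL** (medium). Proof. `det ρ (a g) = det ρ a det ρ g`, so `tt ρ (a g) = tt ρ (b g)` means
`tr(ρ a ρ g)² det ρ b = tr(ρ b ρ g)² det ρ a`. Let `l² = det ρ a / det ρ b` (`Ω` algebraically closed), `l ≠ 0`.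
So `f₊ f₋ = 0` on the set, where `f± (g) = tr((ρ a ∓ l ρ b) ρ g)` (linear in the coefficients of `ρ g`, in `alg ρ`). If the
set has positive measure, then one of the closed sets `{f± = 0}` has. `exists_component μ (alg ρ)` (as in
`AR/ZO.lean`: `finiteType_alg`, `continuous_alg`, `alg_lt`) gives `U`; one of the finitely many
cosets `y U` meets `{f = 0}` in positive measure, so `f = 0` on `y U`: `tr((ρ a ∓ l ρ b) ρ y ρ u) = 0` for all
`u ∈ U`. `ρ` restricted to `U` is irreducible (`SI`; `U` has finite index), so the `ρ u` span `M_2(Ω)` (Burnside, see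
`GO/Irr.lean` and `AR`), so `(ρ a ∓ l ρ b) ρ y = 0`, `ρ a = ± l ρ b`: contradiction. -/
def NUL_stmt : Prop := ∀ (Γ : Type) [Group Γ] [TopologicalSpace Γ] [IsTopologicalGroup Γ]
  [CompactSpace Γ] [MeasurableSpace Γ] [BorelSpace Γ] (μ : Measure Γ) [μ.IsHaarMeasure]
  (Ω : Type) [Field Ω] [IsAlgClosed Ω] [CharZero Ω] [TopologicalSpace Ω] [IsTopologicalRing Ω]
  [T2Space Ω] (ρ : Γ →* Matrix (Fin 2) (Fin 2) Ω), Continuous ρ → SI ρ →
  ∀ a b : Γ, (∀ c : Ω, ρ a ≠ c • ρ b) → μ {g | tt ρ (a * g) = tt ρ (b * g)} = 0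

/-- **Row MEA** (short-medium). Proof. `N : ℕ`, `C_a = {g | z a * g ∈ C}` for `a < N`: measurable, of measure
`μ C` (`measure_preimage_mul`). Outside the null set `⋃_{a ≠ b} {t (z a g) = t (z b g)}` at most `D` of the `a < N` satisfy
`z a * g ∈ C`: for `D + 1` of them, `(z a g)⁻¹ (z b g) = g⁻¹ (z a)⁻¹ z b g ∈ Z` (normal), so two values of `t`
agree. Hence `N μ C = ∑ μ C_a = ∫⁻ ∑ 1_{C_a} ≤ D μ univ` (`lintegral_finset_sum`,
`lintegral_mono_ae`), `μ univ < ∞`, for all `N`: `μ C = 0`. -/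
def MEA_stmt : Prop := ∀ (Γ : Type) [Group Γ] [TopologicalSpace Γ] [IsTopologicalGroup Γ]
  [CompactSpace Γ] [MeasurableSpace Γ] [BorelSpace Γ] (μ : Measure Γ) [μ.IsHaarMeasure]
  (X : Type) (t : Γ → X) (Z : Subgroup Γ), Z.Normal → ∀ z : ℕ → Γ, (∀ a, z a ∈ Z) →
  (∀ a b, a ≠ b → μ {g | t (z a * g) = t (z b * g)} = 0) →
  ∀ (D : ℕ) (C : Set Γ), IsClosed C →
    (∀ g : Fin (D + 1) → Γ, (∀ a, g a ∈ C) → (∀ a b, (g a)⁻¹ * g b ∈ Z) →
      ∃ a b, a ≠ b ∧ t (g a) = t (g b)) → μ C = 0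

/-- **Row CLO** (medium). From `Determined`: `S`, `D`, `δ`, and for `m : ℕ` a modulus `M m` for
`ε = 2 ^ (-m)`. Let `T m` be the (finite) union over `m' ≤ m` of the exceptional sets of `V q`, `q` a
prime factor of `M m'`, and of `ρ`; increasing in `m`. `C m = closure {s | ∃ v ∈ S, v ∉ T m ∧ s ∈ frob v}`, decreasing,
`μ (C m) ≥ δ`; `C = ⋂ C m` is closed, `μ C ≥ δ > 0` (`tendsto_measure_iInter_atTop`, `μ` finite). Property:
let `g : Fin (D+1) → Γ` be in `C`, `(g a)⁻¹ g b ∈ kerAll V`; so `V q i (g a) = V q i (g b)` for all `q, i`. For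
`m : ℕ`: the set of the `x` near `g a` with `V q i x ≡ V q i (g a)` modulo `q ^ (v_q (M m))` (entries) for the prime
factors `q` of `M m` and `‖tt ρ x - tt ρ (g a)‖ ≤ 2 ^ (-m)` is a neighbourhood of `g a`, so it contains some
`s_a ∈ frob (v_a)`, `v_a ∈ S`, `v_a ∉ T m`. The characteristic polynomials of `V q i (s_a)` are `P i (v_a)`, and
congruent modulo `q ^ (v_q (M m))` to the common one of the `V q i (g a)`; so `P i (v_a) ≡ P i (v_b)` modulo `q ^ (v_q (M m))`
in `ℤ_[q]`, so in `ℤ` (`PadicInt.pow_p_dvd_int_iff`), for all `q`, so modulo `M m`. Hence for some `a ≠ b`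
`‖ι (tv Q v_a) - ι (tv Q v_b)‖ ≤ 2 ^ (-m)`, and `ι (tv Q v_a) = tt ρ (s_a)` (`charpoly` of a `2 × 2` matrix:
`coeff 1 = -tr`, `coeff 0 = det`); so `‖tt ρ (g a) - tt ρ (g b)‖ ≤ 3 * 2 ^ (-m)`. Some pair `(a, b)` occurs for infinitely
many `m`: `tt ρ (g a) = tt ρ (g b)`. -/
def CLO_stmt : Prop := ∀ (Γ Place E F : Type) [Group Γ] [TopologicalSpace Γ]
  [IsTopologicalGroup Γ] [CompactSpace Γ] [MeasurableSpace Γ] [BorelSpace Γ] (μ : Measure Γ)
  [μ.IsHaarMeasure] [Field E] [NormedField F] (frob : Place → Set Γ) (r : ℕ) (n : Fin r → ℕ)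
  (P : Fin r → Place → ℤ[X]) (Q : Place → E[X]) (ι : E →+* F)
  (V : (q : ℕ) → [Fact q.Prime] → (i : Fin r) → Γ →* Matrix (Fin (n i)) (Fin (n i)) ℤ_[q])
  (ρ : Γ →* Matrix (Fin 2) (Fin 2) F), (∀ (q : ℕ) [Fact q.Prime] (i : Fin r), Continuous (V q i)) →
  Continuous ρ →
  (∀ (q : ℕ) [Fact q.Prime], ∃ T : Set Place, T.Finite ∧ ∀ v ∉ T, ∀ s ∈ frob v, ∀ i,
    (V q i s).charpoly = (P i v).map (Int.castRingHom ℤ_[q])) →
  (∃ T : Set Place, T.Finite ∧ ∀ v ∉ T, ∀ s ∈ frob v, (ρ s).charpoly = (Q v).map ι) →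
  Determined μ frob P Q ι →
  ∃ (C : Set Γ) (D : ℕ), IsClosed C ∧ μ C ≠ 0 ∧ ∀ g : Fin (D + 1) → Γ, (∀ a, g a ∈ C) →
    (∀ a b, (g a)⁻¹ * g b ∈ kerAll V) → ∃ a b, a ≠ b ∧ tt ρ (g a) = tt ρ (g b)

/-- **Row ROT** (medium). `AdArises V ρ`: open `U`, `a`, `b`, `AdSubquotient U ρ (tens (dirSum V) a b)`. Take
`D = (∑ i, n i) ^ (a + b)`, or any bound for the number of pairs of functions below. Proof. For `g ∈ U` let `α, β` be the
eigenvalues of `ρ g` (`α β ≠ 0`, `Ω` algebraically closed). Then `α / β` is an eigenvalue of conjugation by `ρ g`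
on matrices of trace `0`, so of `tens (dirSum V) a b g` (subquotient: the
eigenvalues of `π ∘ T = T' ∘ π`, `T` on `Q`: the charpoly of the quotient divides; or: `x ∈ Q` with `π x` an eigenvector; the
polynomial `charpoly (T)` kills `T`, so `charpoly(T)(α/β) π x = 0`). By `eig_tens`
(`Pool/Agent/helper67/RG/TE.lean`): `(α/β) ∏ δ_k = ∏ γ_k` with `γ_k`, `δ_k` eigenvalues of `dirSum V g`, i.e. roots of
`∏ i, (V i g).charpoly` (`charpoly` of a block diagonal matrix; eigenvalues of `dirSum V g` are eigenvalues of some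
`V i g`). And `tt ρ g = α/β + 2 + β/α`. Let `g : Fin (D+1) → Γ` be in `U` with the same characteristic polynomials
`(V i (g a)).charpoly` for all `i`. The `γ_k`, `δ_k` for all `g a` are in the finite set of the
roots of one polynomial of degree `∑ i, n i`, with at most `∑ i, n i` elements; so there are at most
`D` values of `tt ρ (g a)`; pigeonhole (`Fintype.exists_ne_map_eq_of_card_lt`). -/
def ROT_stmt : Prop := ∀ (Γ : Type) [Group Γ] [TopologicalSpace Γ] (Ω : Type) [Field Ω]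
  [IsAlgClosed Ω] [CharZero Ω] (r : ℕ) (n : Fin r → ℕ)
  (V : (i : Fin r) → Γ →* Matrix (Fin (n i)) (Fin (n i)) Ω) (ρ : Γ →* Matrix (Fin 2) (Fin 2) Ω),
  AdArises V ρ →
  ∃ (U : Subgroup Γ) (D : ℕ), IsOpen (U : Set Γ) ∧ ∀ g : Fin (D + 1) → Γ, (∀ a, g a ∈ U) →
    (∀ a b i, (V i (g a)).charpoly = (V i (g b)).charpoly) → ∃ a b, a ≠ b ∧ tt ρ (g a) = tt ρ (g b)

/-- **Row CNV** (medium). `U` open subgroup with the property of ROT for the `V i` over `ℤ_[p]` and `ρ` over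
`F`. Then `Determined`. Proof. `T₀` = the union of the two exceptional sets. `S = {v | v ∉ T₀ ∧ ∃ s ∈ frob v, s ∈ U}`.
`Positive`: `δ = μ U > 0` (open, nonempty, Haar); for `T` finite, `U ⊆ closure {s | ∃ v ∈ S, v ∉ T ∧ s ∈ frob v}`: for `g ∈ U`
and a neighbourhood `O` of `g` apply `hd` (`DenseIn frob ⊤ univ`) to the open set `interior O ∩ U` and the finite set `T ∪ T₀`.
Let `ε > 0`. Suppose that for no `k` the modulus `M = p ^ k` works. So the sets
`K_k = {g : Fin (D+1) → Γ | (∀ a, g a ∈ U) ∧ (∀ a b i l, p^k ∣ coeff l of charpoly (V i (g a)) - charpoly (V i (g b))) ∧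
∀ a ≠ b, ε ≤ ‖tt ρ (g a) - tt ρ (g b)‖}` are nonempty (take `g a ∈ frob (v a) ∩ U`; `ι (tv Q v) = tt ρ s`, the coefficients
are those of `P i v`, divisibility in `ℤ` gives divisibility in `ℤ_[p]`), closed (continuity; `U` is closed; the multiples of `p^k` in
`ℤ_[p]` are a closed ball), decreasing, in a compact space: there is `g` in all of them
(`IsCompact.nonempty_iInter_of_sequence_nonempty_isCompact_isClosed`). The characteristic polynomials are equal
(differences divisible by all `p^k`), so `tt ρ (g a) = tt ρ (g b)` for some `a ≠ b`, contradiction to `ε ≤ 0`. -/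
def CNV_stmt : Prop := ∀ (Γ Place E F : Type) [Group Γ] [TopologicalSpace Γ]
  [IsTopologicalGroup Γ] [CompactSpace Γ] [MeasurableSpace Γ] [BorelSpace Γ] (μ : Measure Γ)
  [μ.IsHaarMeasure] [Field E] [NormedField F] (frob : Place → Set Γ),
  Pool.Agent.RG.DenseIn frob ⊤ Set.univ → ∀ (r : ℕ) (n : Fin r → ℕ)
  (P : Fin r → Place → ℤ[X]) (Q : Place → E[X]) (ι : E →+* F) (p : ℕ) [Fact p.Prime]
  (V : (i : Fin r) → Γ →* Matrix (Fin (n i)) (Fin (n i)) ℤ_[p])
  (ρ : Γ →* Matrix (Fin 2) (Fin 2) F), (∀ i, Continuous (V i)) → Continuous ρ →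
  (∃ T : Set Place, T.Finite ∧ ∀ v ∉ T, ∀ s ∈ frob v, ∀ i,
    (V i s).charpoly = (P i v).map (Int.castRingHom ℤ_[p])) →
  (∃ T : Set Place, T.Finite ∧ ∀ v ∉ T, ∀ s ∈ frob v, (ρ s).charpoly = (Q v).map ι) →
  (∃ (U : Subgroup Γ) (D : ℕ), IsOpen (U : Set Γ) ∧ ∀ g : Fin (D + 1) → Γ, (∀ a, g a ∈ U) →
    (∀ a b i, (V i (g a)).charpoly = (V i (g b)).charpoly) →
    ∃ a b, a ≠ b ∧ tt ρ (g a) = tt ρ (g b)) →
  Determined μ frob P Q ι

end Pool.Agent.AX
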