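import Pool.Agent.helper44.AX.SpecG
import Pool.Agent.helper64.AX.CRA
import Pool.Agent.helper46.AX.SpecT
import Pool.Agent.helper67.RG.Main

/-!
# AX: the congruence criterion (assembly)
-/

set_option autoImplicit false

namespace Pool.Agent.AX

open Matrix Polynomial Topology Filter Pool.Agent.GO Pool.Agent.AR Pool.Agent.RG Pool.Agent.HZ
  Pool.Agent.DS Pool.Agent.FLD MeasureTheory NumberField

theorem CC_coe_one {p : ℕ} [Fact p.Prime] {m : Type*} [Fintype m] [DecidableEq m]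
    (A : Matrix m m ℤ_[p]) : A.map (PadicInt.Coe.ringHom : ℤ_[p] →+* ℚ_[p]) = 1 ↔ A = 1 := by
  constructor
  · intro h
    ext a b
    have h1 := congrFun (congrFun h a) b
    rw [Matrix.map_apply, Matrix.one_apply] at h1
    rw [Matrix.one_apply]
    split_ifs at h1 ⊢ with h2
    · exact Subtype.ext h1
    · exact Subtype.ext h1
  · rintro rfl
    ext a b
    rw [Matrix.map_apply, Matrix.one_apply, Matrix.one_apply]
    split_ifs <;> simp

/-- the representations over `ℚ_[p]` -/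
noncomputable def CC_VQ {Γ : Type} [Group Γ] {r : ℕ} {n : Fin r → ℕ} (p : ℕ) [Fact p.Prime]
    (V : (i : Fin r) → Γ →* Matrix (Fin (n i)) (Fin (n i)) ℤ_[p]) :
    (i : Fin r) → Γ →* Matrix (Fin (n i)) (Fin (n i)) ℚ_[p] :=
  fun i => mapHom (PadicInt.Coe.ringHom : ℤ_[p] →+* ℚ_[p]) (V i)

theorem CC_VQ_eq {Γ : Type} [Group Γ] {r : ℕ} {n : Fin r → ℕ} (p : ℕ) [Fact p.Prime]
    (F Ω : Type) [NormedField F] [NormedAlgebra ℚ_[p] F] [Field Ω] [Algebra F Ω]
    (V : (i : Fin r) → Γ →* Matrix (Fin (n i)) (Fin (n i)) ℤ_[p]) :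
    (fun i => mapHom (padicTo p F Ω) (V i)) =
      fun i => bc ((algebraMap F Ω).comp (algebraMap ℚ_[p] F)) (CC_VQ p V i) := by
  funext i
  ext g a b
  rfl

theorem CC_meet {Γ : Type} [Group Γ] {r : ℕ} {n : Fin r → ℕ} (p : ℕ) [Fact p.Prime]
    (F : Type) [Field F]
    (V : (i : Fin r) → Γ →* Matrix (Fin (n i)) (Fin (n i)) ℤ_[p])
    (ρ : Γ →* Matrix (Fin 2) (Fin 2) F) :
    meet (CC_VQ p V) ρ = kerV V ⊔ adKer ρ := by
  ext g
  rw [mem_sup_adKer]
  constructor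
  · rintro ⟨h, hV, c, hc⟩
    exact ⟨h, (CRA_mem_kerV V h).mpr fun i => (CC_coe_one _).mp (hV i), c, hc⟩
  · rintro ⟨h, hV, c, hc⟩
    exact ⟨h, fun i => (CC_coe_one _).mpr ((CRA_mem_kerV V h).mp hV i), c, hc⟩

theorem CC_contQ {Γ : Type} [Group Γ] [TopologicalSpace Γ] {r : ℕ} {n : Fin r → ℕ} (p : ℕ)
    [Fact p.Prime] (V : (i : Fin r) → Γ →* Matrix (Fin (n i)) (Fin (n i)) ℤ_[p])
    (hV : ∀ i, Continuous (V i)) (i : Fin r) : Continuous (CC_VQ p V i) := by
  show Continuous fun g => (V i g).map (PadicInt.Coe.ringHom : ℤ_[p] →+* ℚ_[p])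
  exact (hV i).matrix_map continuous_subtype_val

/-- finite index for all primes at once -/
theorem CC_fin (hFIX : FIX_stmt) (hYV : YV_stmt) {Γ : Type} [Group Γ] [TopologicalSpace Γ]
    [IsTopologicalGroup Γ] [CompactSpace Γ] {r : ℕ} {n : Fin r → ℕ}
    (V : (q : ℕ) → [Fact q.Prime] → (i : Fin r) → Γ →* Matrix (Fin (n i)) (Fin (n i)) ℤ_[q])
    (hV : ∀ (q : ℕ) [Fact q.Prime] (i : Fin r), Continuous (V q i)) (p : ℕ) [Fact p.Prime]
    (F Ω : Type) [NormedField F] [NormedAlgebra ℚ_[p] F]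
    [FiniteDimensional ℚ_[p] F] [Field Ω] [IsAlgClosed Ω] [CharZero Ω] [Algebra F Ω]
    (ρ : Γ →* Matrix (Fin 2) (Fin 2) F) (hρ : Continuous ρ) (hint : ∀ g a b, ‖ρ g a b‖ ≤ 1)
    (hSI : SI (bc (algebraMap F Ω) ρ)) (h : (kerV (V p) ⊔ adKer ρ).FiniteIndex) :
    (kerAll V ⊔ adKer ρ).FiniteIndex := by
  classical
  let A : Type := {q : ℕ // q.Prime ∧ q ≠ p} × Fin r
  let K : A → Subgroup Γ := fun a =>
    haveI : Fact (a.1.1).Prime := ⟨a.1.2.1⟩
    (V a.1.1 a.2).ker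
  have hK : ∀ a : A, (a.1.1).Prime ∧ a.1.1 ≠ p ∧ HasLayer (a.1.1) (∑ i, n i) (K a) := by
    intro a
    haveI : Fact (a.1.1).Prime := ⟨a.1.2.1⟩
    exact ⟨a.1.2.1, a.1.2.2, hYV a.1.1 (n a.2) (∑ i, n i)
      (Finset.single_le_sum (f := n) (fun _ _ => Nat.zero_le _) (Finset.mem_univ a.2)) Γ
      (V a.1.1 a.2) (hV a.1.1 a.2)⟩
  have hMc : IsClosed (kerV (V p) : Set Γ) := by
    have h1 : (kerV (V p) : Set Γ) = ⋂ i, ((V p i).ker : Set Γ) := by
      ext g
      simp only [SetLike.mem_coe, Set.mem_iInter, CRA_mem_kerV, MonoidHom.mem_ker]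
    rw [h1]
    exact isClosed_iInter fun i => CRA_closed_ker (V p i) (hV p i)
  have hfin := hFIX p (∑ i, n i) Γ F Ω ρ hρ hint hSI (kerV (V p)) (CRA_kerV_normal (V p)) hMc h A
    (fun a => a.1.1) K hK
  have hle : (kerV (V p) ⊓ ⨅ a, K a) ≤ kerAll V := by
    intro g hg
    rw [CRA_mem_kerAll]
    intro q _ i
    by_cases hq : q = p
    · subst hq
      exact (CRA_mem_kerV (V q) g).mp hg.1 i
    · have h1 := (Subgroup.mem_iInf.mp hg.2) (⟨q, Fact.out, hq⟩, i)
      exact h1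
  exact Subgroup.finiteIndex_of_le (sup_le_sup_right hle (adKer ρ))

theorem MAIN2 (hFIX : FIX_stmt) (hYV : YV_stmt) (hNUL : NUL_stmt) (hMEA : MEA_stmt)
    (hCLO : CLO_stmt) (hROT : ROT_stmt) (hCNV : CNV_stmt) (hTIN : TIN_stmt.{0}) :
    MAIN2_stmt := by
  intro Γ Place E _ _ _ _ _ _ μ _ frob hd _ _ r n P Q q s w O hO V hV hch p _ F Ω _ _ _ _ _ _ _ _ _
    _ ι ρ hρ hint hR
  have hSI : SI (bc (algebraMap F Ω) ρ) := SI_of_open _ hR.cont hR.irr
  have hR' := hR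
  rw [CC_VQ_eq] at hR'
  have h2 := clause2 μ frob _ Q q s w O hO p F Ω ((algebraMap F Ω).comp ι) (CC_VQ p (V p)) ρ
    (CC_contQ p (V p) fun i => hV p i) hρ hR'
  rw [CC_meet, ← CC_VQ_eq] at h2
  have hfin : ¬ Arises (fun i => mapHom (padicTo p F Ω) (V p i)) (bc (algebraMap F Ω) ρ) →
      (kerAll V ⊔ adKer ρ).FiniteIndex := by
    intro hA
    have h3 : (kerV (V p) ⊔ adKer ρ).FiniteIndex := by
      by_contra hcon
      exact hA (h2.mp hcon)
    exact CC_fin hFIX hYV V hV p F Ω ρ hρ hint hSI h3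
  have hρch : ∃ T : Set Place, T.Finite ∧ ∀ v ∉ T, ∀ s ∈ frob v,
      (ρ s).charpoly = (Q v).map ι := by
    obtain ⟨T, hT, hc⟩ := hR.comp
    refine ⟨T, hT, fun v hv s hs => ?_⟩
    have h3 := hc v hv s hs
    have h4 : (bc (algebraMap F Ω) ρ s).charpoly = ((ρ s).charpoly).map (algebraMap F Ω) :=
      Matrix.charpoly_map (ρ s) (algebraMap F Ω)
    rw [h4, ← Polynomial.map_map] at h3
    exact Polynomial.map_injective _ (algebraMap F Ω).injective h3
  have htt : ∀ g, tt (bc (algebraMap F Ω) ρ) g = algebraMap F Ω (tt ρ g) := by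
    intro g
    have h3 : bc (algebraMap F Ω) ρ g = (ρ g).map (algebraMap F Ω) := rfl
    unfold tt
    rw [h3, Matrix.trace_fin_two, Matrix.det_fin_two, Matrix.trace_fin_two, Matrix.det_fin_two]
    simp only [Matrix.map_apply, map_div₀, map_pow, map_add, map_sub, map_mul]
  have t12 : Determined μ frob P Q ι →
      Arises (fun i => mapHom (padicTo p F Ω) (V p i)) (bc (algebraMap F Ω) ρ) := by
    intro hD
    by_contra hA
    have h3 := hfin hA
    have h4 : (kerAll V ⊔ adKer (bc (algebraMap F Ω) ρ)).FiniteIndex := by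
      refine Subgroup.finiteIndex_of_le (sup_le_sup_left ?_ (kerAll V) :
        kerAll V ⊔ adKer ρ ≤ _)
      rintro g ⟨c, hc⟩
      refine ⟨algebraMap F Ω c, ?_⟩
      show (ρ g).map (algebraMap F Ω) = _
      rw [hc]
      ext a b
      simp only [Matrix.map_apply, Matrix.smul_apply, smul_eq_mul, map_mul, Matrix.one_apply]
      split_ifs <;> simp
    obtain ⟨z, hz, hzz⟩ := hTIN (bc (algebraMap F Ω) ρ) hR.cont hR.irr (kerAll V) h4
    obtain ⟨C, D, hCc, hC0, hCD⟩ := hCLO Γ Place E F μ frob r n P Q ι V ρ hV hρ hch hρch hD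
    apply hC0
    have hn : (kerAll V).Normal := by
      unfold kerAll
      exact Subgroup.normal_iInf_normal fun q => Subgroup.normal_iInf_normal fun hq =>
        CRA_kerV_normal _
    refine hMEA Γ μ F (tt ρ) (kerAll V) hn z hz ?_ D C hCc hCD
    intro a b hab
    have h5 := hNUL Γ μ Ω (bc (algebraMap F Ω) ρ) hR.cont hSI (z a) (z b) (hzz a b hab)
    refine measure_mono_null ?_ h5
    intro g hg
    show tt (bc (algebraMap F Ω) ρ) (z a * g) = tt (bc (algebraMap F Ω) ρ) (z b * g)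
    rw [htt, htt]
    exact congrArg _ hg
  have t31 : Arises (fun i => mapHom (padicTo p F Ω) (V p i)) (bc (algebraMap F Ω) ρ) →
      Determined μ frob P Q ι := by
    intro hA
    obtain ⟨S, Φ, hS, hΦ⟩ := (clause1 μ frob _ Q q s w O hO ((algebraMap F Ω).comp ι) _ _ hR).2 hA
    have hAd := clause0 μ frob _ Q S Φ hS hΦ ((algebraMap F Ω).comp ι) _ _ hR
    have hAd' : AdArises (fun i => mapHom (padicTo p F Ω) (V p i)) (bc (algebraMap F Ω) ρ) := by
      obtain ⟨U, hU, a, b, hab⟩ := hAd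
      exact ⟨U, a, b, hU, hab⟩
    obtain ⟨U, D, hU, hUD⟩ := hROT Γ Ω r n _ _ hAd'
    refine hCNV Γ Place E F μ frob hd r n P Q ι p (V p) ρ (fun i => hV p i) hρ (hch p) hρch
      ⟨U, D, hU, fun g hg hcc => ?_⟩
    obtain ⟨a, b, hab, he⟩ := hUD g hg (by
      intro a b i
      have h3 : ∀ g, (mapHom (padicTo p F Ω) (V p i) g).charpoly =
          ((V p i g).charpoly).map (padicTo p F Ω) := fun g =>
        Matrix.charpoly_map (V p i g) (padicTo p F Ω)
      rw [h3, h3, hcc a b i])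
    refine ⟨a, b, hab, ?_⟩
    rw [htt, htt] at he
    exact (algebraMap F Ω).injective he
  have t23 : (kerAll V ⊔ adKer ρ).index = 0 →
      Arises (fun i => mapHom (padicTo p F Ω) (V p i)) (bc (algebraMap F Ω) ρ) := by
    intro h0
    by_contra hA
    exact (hfin hA).index_ne_zero h0
  have t32 : Arises (fun i => mapHom (padicTo p F Ω) (V p i)) (bc (algebraMap F Ω) ρ) →
      (kerAll V ⊔ adKer ρ).index = 0 := by
    intro hA
    by_contra h0
    apply h2.mpr hA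
    have h3 : (kerAll V ⊔ adKer ρ).FiniteIndex := ⟨h0⟩
    refine Subgroup.finiteIndex_of_le (sup_le_sup_right ?_ (adKer ρ) : kerAll V ⊔ adKer ρ ≤ _)
    intro g hg
    rw [CRA_mem_kerV]
    exact fun i => (CRA_mem_kerAll V g).mp hg p i
  tfae_have 1 → 3 := t12
  tfae_have 3 → 1 := t31
  tfae_have 2 → 3 := t23
  tfae_have 3 → 2 := t32
  tfae_have 3 → 4 := by
    intro hA F' _ _ _ _ _ _ ι' V' ρ' hR''
    exact (clause1 μ frob _ Q q s w O hO ι' V' ρ' hR'').1
      ((clause1 μ frob _ Q q s w O hO ((algebraMap F Ω).comp ι) _ _ hR).2 hA)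
  tfae_have 4 → 3 := by
    intro h4
    exact h4 Ω ((algebraMap F Ω).comp ι) _ _ hR
  tfae_finish

end Pool.Agent.AX
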