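import Pool.Agent.helper44.AX.SpecA

/-!
# AX, row FIX
-/

set_option autoImplicit false

namespace Pool.Agent.AX

open Matrix Polynomial Topology Filter Pool.Agent.GO Pool.Agent.AR Pool.Agent.RG Pool.Agent.HZ
  Pool.Agent.FLD

section small

variable {F : Type} [NormedField F] [IsUltrametricDist F]

/-- all entries have norm at most `ε` -/
def FIX_Sm (ε : ℝ) (A : Matrix (Fin 2) (Fin 2) F) : Prop := ∀ a b, ‖A a b‖ ≤ ε

theorem FIX_add {ε : ℝ} {A B : Matrix (Fin 2) (Fin 2) F} (hA : FIX_Sm ε A) (hB : FIX_Sm ε B) :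
    FIX_Sm ε (A + B) := fun a b =>
  (IsUltrametricDist.norm_add_le_max _ _).trans (max_le (hA a b) (hB a b))

omit [IsUltrametricDist F] in
theorem FIX_neg {ε : ℝ} {A : Matrix (Fin 2) (Fin 2) F} (hA : FIX_Sm ε A) : FIX_Sm ε (-A) := by
  intro a b
  rw [Matrix.neg_apply, norm_neg]
  exact hA a b

theorem FIX_sub {ε : ℝ} {A B : Matrix (Fin 2) (Fin 2) F} (hA : FIX_Sm ε A) (hB : FIX_Sm ε B) :
    FIX_Sm ε (A - B) := by
  rw [sub_eq_add_neg]
  exact FIX_add hA (FIX_neg hB)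

theorem FIX_mul {ε δ : ℝ} (hε : 0 ≤ ε) {A B : Matrix (Fin 2) (Fin 2) F} (hA : FIX_Sm ε A)
    (hB : FIX_Sm δ B) : FIX_Sm (ε * δ) (A * B) := by
  intro a b
  rw [Matrix.mul_apply, Fin.sum_univ_two]
  refine (IsUltrametricDist.norm_add_le_max _ _).trans (max_le ?_ ?_)
  · rw [norm_mul]
    exact mul_le_mul (hA _ _) (hB _ _) (norm_nonneg _) hε
  · rw [norm_mul]
    exact mul_le_mul (hA _ _) (hB _ _) (norm_nonneg _) hε

theorem FIX_mul1 {δ : ℝ} {A B : Matrix (Fin 2) (Fin 2) F} (hA : FIX_Sm 1 A)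
    (hB : FIX_Sm δ B) : FIX_Sm δ (A * B) := by
  have := FIX_mul zero_le_one hA hB
  rwa [one_mul] at this

theorem FIX_mul2 {δ : ℝ} (hδ : 0 ≤ δ) {A B : Matrix (Fin 2) (Fin 2) F} (hA : FIX_Sm δ A)
    (hB : FIX_Sm 1 B) : FIX_Sm δ (A * B) := by
  have := FIX_mul hδ hA hB
  rwa [mul_one] at this

omit [IsUltrametricDist F] in
theorem FIX_smul {δ : ℝ} (hδ : 0 ≤ δ) {c : F} (hc : ‖c‖ ≤ 1) {A : Matrix (Fin 2) (Fin 2) F}
    (hA : FIX_Sm δ A) : FIX_Sm δ (c • A) := by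
  intro a b
  rw [Matrix.smul_apply, smul_eq_mul, norm_mul]
  calc ‖c‖ * ‖A a b‖ ≤ 1 * δ := mul_le_mul hc (hA a b) (norm_nonneg _) zero_le_one
    _ = δ := one_mul δ

omit [IsUltrametricDist F] in
theorem FIX_mono {ε δ : ℝ} (h : ε ≤ δ) {A : Matrix (Fin 2) (Fin 2) F} (hA : FIX_Sm ε A) :
    FIX_Sm δ A := fun a b => (hA a b).trans h

variable {Γ : Type} [Group Γ] (ρ : Γ →* Matrix (Fin 2) (Fin 2) F)
  (hint : ∀ g a b, ‖ρ g a b‖ ≤ 1)

include hint

/-- the congruence subgroup -/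
def FIX_U (ε : ℝ) (hε : 0 ≤ ε) : Subgroup Γ where
  carrier := {g | FIX_Sm ε (ρ g - 1)}
  one_mem' := by
    show FIX_Sm ε (ρ 1 - 1)
    rw [map_one, sub_self]
    intro a b
    simpa using hε
  mul_mem' := by
    intro g h hg hh
    show FIX_Sm ε (ρ (g * h) - 1)
    have h1 : ρ (g * h) - 1 = (ρ g - 1) * ρ h + (ρ h - 1) := by
      rw [map_mul]; noncomm_ring
    rw [h1]
    exact FIX_add (FIX_mul2 hε hg (hint h)) hh
  inv_mem' := by
    intro g hg
    show FIX_Sm ε (ρ g⁻¹ - 1)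
    have h1 : ρ g⁻¹ - 1 = -(ρ g⁻¹ * (ρ g - 1)) := by
      rw [mul_sub, hom_inv_mul' ρ g, mul_one]; noncomm_ring
    rw [h1]
    exact FIX_neg (FIX_mul1 (hint g⁻¹) hg)

omit [IsUltrametricDist F] in
theorem FIX_det [IsUltrametricDist F] (g : Γ) : ‖(ρ g).det‖ = 1 := by
  have hle : ∀ g : Γ, ‖(ρ g).det‖ ≤ 1 := by
    intro g
    rw [Matrix.det_fin_two, sub_eq_add_neg]
    refine (IsUltrametricDist.norm_add_le_max _ _).trans (max_le ?_ ?_)
    · rw [norm_mul]; exact mul_le_one₀ (hint _ _ _) (norm_nonneg _) (hint _ _ _)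
    · rw [norm_neg, norm_mul]; exact mul_le_one₀ (hint _ _ _) (norm_nonneg _) (hint _ _ _)
  have h1 : ‖(ρ g).det‖ * ‖(ρ g⁻¹).det‖ = 1 := by
    rw [← norm_mul, ← Matrix.det_mul, hom_mul_inv', Matrix.det_one, norm_one]
  have h2 := hle g
  have h3 := hle g⁻¹
  have h4 := norm_nonneg (ρ g).det
  nlinarith [norm_nonneg (ρ g⁻¹).det]

omit [IsUltrametricDist F] hint in
/-- membership in the layer subgroups -/
def FIX_Q (ε : ℝ) (g : Γ) : Prop :=
  ‖ρ g 0 1‖ ≤ ε ∧ ‖ρ g 1 0‖ ≤ ε ∧ ‖ρ g 0 0 - ρ g 1 1‖ ≤ ε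

omit hint in
theorem FIX_Q_of {ε : ℝ} {g : Γ} {c : F} (h : FIX_Sm ε (ρ g - c • 1)) : FIX_Q ρ ε g := by
  refine ⟨?_, ?_, ?_⟩
  · have := h 0 1
    simpa using this
  · have := h 1 0
    simpa using this
  · have h1 := h 0 0
    have h2 := h 1 1
    have h3 : ρ g 0 0 - ρ g 1 1 = (ρ g - c • (1 : Matrix (Fin 2) (Fin 2) F)) 0 0 +
        -((ρ g - c • (1 : Matrix (Fin 2) (Fin 2) F)) 1 1) := by
      simp
    rw [h3]
    refine (IsUltrametricDist.norm_add_le_max _ _).trans (max_le h1 ?_)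
    rw [norm_neg]
    exact h2

omit [IsUltrametricDist F] hint in
theorem FIX_Q_to {ε : ℝ} (hε : 0 ≤ ε) {g : Γ} (h : FIX_Q ρ ε g) :
    FIX_Sm ε (ρ g - (ρ g 0 0) • 1) := by
  obtain ⟨h1, h2, h3⟩ := h
  intro a b
  fin_cases a <;> fin_cases b
  · simpa using hε
  · simpa using h1
  · simpa using h2
  · have : (ρ g - ρ g 0 0 • (1 : Matrix (Fin 2) (Fin 2) F)) 1 1 = -(ρ g 0 0 - ρ g 1 1) := by
      simp
    show ‖(ρ g - ρ g 0 0 • (1 : Matrix (Fin 2) (Fin 2) F)) 1 1‖ ≤ ε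
    rw [this, norm_neg]
    exact h3

omit [IsUltrametricDist F] in
theorem FIX_inv [IsUltrametricDist F] (g : Γ) : ρ g⁻¹ = (ρ g).det⁻¹ • (ρ g).adjugate := by
  have h1 : ρ g⁻¹ = (ρ g)⁻¹ := by
    rw [Matrix.inv_eq_right_inv (hom_mul_inv' ρ g)]
  rw [h1, Matrix.inv_def, Ring.inverse_eq_inv']

/-- the layer subgroups -/
def FIX_L (ε : ℝ) (hε : 0 ≤ ε) : Subgroup Γ where
  carrier := {g | FIX_Q ρ ε g}
  one_mem' := by
    show FIX_Q ρ ε 1
    refine ⟨?_, ?_, ?_⟩ <;> simp [hε]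
  mul_mem' := by
    intro g h hg hh
    show FIX_Q ρ ε (g * h)
    have h1 := FIX_Q_to ρ hε hg
    have h2 := FIX_Q_to ρ hε hh
    apply FIX_Q_of ρ (c := ρ g 0 0 * ρ h 0 0)
    have h3 : ρ (g * h) - (ρ g 0 0 * ρ h 0 0) • (1 : Matrix (Fin 2) (Fin 2) F) =
        (ρ g - (ρ g 0 0) • 1) * ρ h + (ρ g 0 0) • (ρ h - (ρ h 0 0) • 1) := by
      rw [map_mul, sub_mul, smul_sub, smul_smul, Matrix.smul_mul, one_mul]
      abel
    rw [h3]
    exact FIX_add (FIX_mul2 hε h1 (hint h)) (FIX_smul hε (hint g 0 0) h2)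
  inv_mem' := by
    intro g hg
    show FIX_Q ρ ε g⁻¹
    have hdet : ‖((ρ g).det)⁻¹‖ = 1 := by rw [norm_inv, FIX_det ρ hint g, inv_one]
    have hinv := FIX_inv ρ hint g
    obtain ⟨h1, h2, h3⟩ := hg
    refine ⟨?_, ?_, ?_⟩
    · rw [hinv, Matrix.adjugate_fin_two]
      simp only [Matrix.smul_apply, Matrix.of_apply, Matrix.cons_val', Matrix.cons_val_zero,
        Matrix.cons_val_one, smul_eq_mul, norm_mul, hdet, one_mul]
      simpa using h1
    · rw [hinv, Matrix.adjugate_fin_two]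
      simp only [Matrix.smul_apply, Matrix.of_apply, Matrix.cons_val', Matrix.cons_val_zero,
        Matrix.cons_val_one, smul_eq_mul, norm_mul, hdet, one_mul]
      simpa using h2
    · rw [hinv, Matrix.adjugate_fin_two]
      simp only [Matrix.smul_apply, Matrix.of_apply, Matrix.cons_val', Matrix.cons_val_zero,
        Matrix.cons_val_one, smul_eq_mul]
      rw [← mul_sub, norm_mul, hdet, one_mul, norm_sub_rev]
      simpa using h3

theorem FIX_L_normal (ε : ℝ) (hε : 0 ≤ ε) : (FIX_L ρ hint ε hε).Normal := by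
  constructor
  intro g hg h
  show FIX_Q ρ ε (h * g * h⁻¹)
  apply FIX_Q_of ρ (c := ρ g 0 0)
  have h3 : ρ (h * g * h⁻¹) - (ρ g 0 0) • (1 : Matrix (Fin 2) (Fin 2) F) =
      ρ h * (ρ g - (ρ g 0 0) • 1) * ρ h⁻¹ := by
    rw [map_mul, map_mul, mul_sub, sub_mul, Matrix.mul_smul, mul_one, Matrix.smul_mul,
      hom_mul_inv']
  rw [h3]
  exact FIX_mul2 hε (FIX_mul1 (hint h) (FIX_Q_to ρ hε hg)) (hint h⁻¹)

theorem FIX_U_normal (ε : ℝ) (hε : 0 ≤ ε) : (FIX_U ρ hint ε hε).Normal := by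
  constructor
  intro g hg h
  show FIX_Sm ε (ρ (h * g * h⁻¹) - 1)
  have h3 : ρ (h * g * h⁻¹) - 1 = ρ h * (ρ g - 1) * ρ h⁻¹ := by
    rw [map_mul, map_mul, mul_sub, sub_mul, mul_one, hom_mul_inv']
  rw [h3]
  exact FIX_mul2 hε (FIX_mul1 (hint h) hg) (hint h⁻¹)

theorem FIX_U_open [TopologicalSpace Γ] (hρ : Continuous ρ) (ε : ℝ) (hε : 0 < ε) :
    IsOpen (FIX_U ρ hint ε hε.le : Set Γ) := by
  have h1 : (FIX_U ρ hint ε hε.le : Set Γ) =
      ⋂ a : Fin 2, ⋂ b : Fin 2, {g | (ρ g - 1) a b ∈ Metric.closedBall (0 : F) ε} := by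
    ext g
    simp only [Set.mem_iInter, Set.mem_setOf_eq, mem_closedBall_zero_iff]
    rfl
  rw [h1]
  refine isOpen_iInter_of_finite fun a => isOpen_iInter_of_finite fun b => ?_
  exact (IsUltrametricDist.isOpen_closedBall _ hε.ne').preimage
    ((hρ.sub continuous_const).matrix_elem a b)

theorem FIX_L_open [TopologicalSpace Γ] (hρ : Continuous ρ) (ε : ℝ) (hε : 0 < ε) :
    IsOpen (FIX_L ρ hint ε hε.le : Set Γ) := by
  have h1 : (FIX_L ρ hint ε hε.le : Set Γ) =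
      {g | ρ g 0 1 ∈ Metric.closedBall (0 : F) ε} ∩ ({g | ρ g 1 0 ∈ Metric.closedBall (0 : F) ε} ∩
        {g | ρ g 0 0 - ρ g 1 1 ∈ Metric.closedBall (0 : F) ε}) := by
    ext g
    simp only [Set.mem_inter_iff, Set.mem_setOf_eq, mem_closedBall_zero_iff]
    rfl
  rw [h1]
  have ho := IsUltrametricDist.isOpen_closedBall (0 : F) hε.ne'
  exact (ho.preimage (hρ.matrix_elem 0 1)).inter ((ho.preimage (hρ.matrix_elem 1 0)).inter
    (ho.preimage ((hρ.matrix_elem 0 0).sub (hρ.matrix_elem 1 1))))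

/-- the `p`-th power is smaller -/
theorem FIX_pow (p : ℕ) (lam : ℝ) (hlam : ‖(p : F)‖ ≤ lam) {δ : ℝ} (hδ : 0 ≤ δ) (hδl : δ ≤ lam)
    {g : Γ} (hg : FIX_Sm δ (ρ g - 1)) : FIX_Sm (lam * δ) (ρ (g ^ p) - 1) := by
  have hl0 : 0 ≤ lam := hδ.trans hδl
  have h1 : ρ (g ^ p) - 1 = (∑ i ∈ Finset.range p, ρ (g ^ i)) * (ρ g - 1) := by
    have := geom_sum_mul (ρ g) p
    rw [map_pow, ← this]
    simp only [map_pow]
  have h2 : FIX_Sm lam (∑ i ∈ Finset.range p, ρ (g ^ i)) := by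
    have h3 : (∑ i ∈ Finset.range p, ρ (g ^ i)) =
        (p : F) • (1 : Matrix (Fin 2) (Fin 2) F) + ∑ i ∈ Finset.range p, (ρ (g ^ i) - 1) := by
      rw [Finset.sum_sub_distrib, Finset.sum_const, Finset.card_range, ← Nat.cast_smul_eq_nsmul F]
      abel
    rw [h3]
    refine FIX_add ?_ ?_
    · intro a b
      rw [Matrix.smul_apply, smul_eq_mul, Matrix.one_apply]
      split_ifs
      · rw [mul_one]; exact hlam
      · rw [mul_zero, norm_zero]; exact hl0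
    · have h4 : ∀ i, FIX_Sm lam (ρ (g ^ i) - 1) := fun i =>
        FIX_mono hδl ((FIX_U ρ hint δ hδ).pow_mem hg i)
      have h5 : ∀ s : Finset ℕ, FIX_Sm lam (∑ i ∈ s, (ρ (g ^ i) - 1)) := by
        classical
        intro s
        induction s using Finset.induction_on with
        | empty =>
          intro a b
          simpa using hl0
        | insert a s ha ih =>
          rw [Finset.sum_insert ha]
          exact FIX_add (h4 a) ih
      exact h5 _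
  rw [h1]
  exact FIX_mul hl0 h2 hg

theorem FIX_powpow (p : ℕ) (lam : ℝ) (hlam : ‖(p : F)‖ ≤ lam) (hl1 : lam ≤ 1) (k : ℕ) {δ : ℝ}
    (hδ : 0 ≤ δ) (hδl : δ ≤ lam) {g : Γ} (hg : FIX_Sm δ (ρ g - 1)) :
    FIX_Sm (lam ^ k * δ) (ρ (g ^ p ^ k) - 1) := by
  have hl0 : 0 ≤ lam := hδ.trans hδl
  induction k with
  | zero => simpa using hg
  | succ k ih =>
    have h1 : lam ^ k * δ ≤ lam := by
      calc lam ^ k * δ ≤ 1 * δ := mul_le_mul_of_nonneg_right (pow_le_one₀ hl0 hl1) hδ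
        _ = δ := one_mul δ
        _ ≤ lam := hδl
    have := FIX_pow ρ hint p lam hlam (mul_nonneg (pow_nonneg hl0 k) hδ) h1 ih
    rw [← pow_mul, ← pow_succ] at this
    rw [pow_succ', mul_assoc]
    exact this

end small

theorem FIX_norm_p (p : ℕ) [Fact p.Prime] (F : Type) [NormedField F] [NormedAlgebra ℚ_[p] F] :
    ‖(p : F)‖ = (p : ℝ)⁻¹ := by
  have h1 : (p : F) = algebraMap ℚ_[p] F (p : ℚ_[p]) := by rw [map_natCast]
  rw [h1, norm_algebraMap', Padic.norm_p]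

theorem FIX_cmt {G H : Type} [Group G] [Group H] (f : G →* H) (L : ℕ) (x y : G) :
    f (cmt L x y) = cmt L (f x) (f y) := by
  unfold cmt
  simp only [map_mul, map_inv, map_pow]

theorem FIX (hSIM : SIM_stmt) (hLPC : LPC_stmt) (hLWC : LWC_stmt) : FIX_stmt := by
  intro p m _ Γ _ _ _ _ F Ω _ _ _ _ _ _ _ ρ hρ hint hSI M hMn hMc hMfin A q K hK
  have hultra : IsUltrametricDist F := IsUltrametricDist.of_normedAlgebra ℚ_[p]
  -- the kernels of the layers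
  have hKn : ∀ a, (K a).Normal := by
    intro a
    obtain ⟨-, -, κ, _, _, _, m', rr, L, -, -, hLn, -, -, -, hKL⟩ := hK a
    rw [hKL]
    exact Subgroup.normal_iInf_normal hLn
  have hKc : ∀ a, IsClosed (K a : Set Γ) := by
    intro a
    obtain ⟨-, -, κ, _, _, _, m', rr, L, -, hLo, -, -, -, -, hKL⟩ := hK a
    rw [hKL, Subgroup.coe_iInf]
    exact isClosed_iInter fun s => Subgroup.isClosed_of_isOpen _ (hLo s)
  have hKin : (⨅ a, K a).Normal := Subgroup.normal_iInf_normal hKn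
  have hKic : IsClosed ((⨅ a, K a : Subgroup Γ) : Set Γ) := by
    rw [Subgroup.coe_iInf]
    exact isClosed_iInter hKc
  set Z : Subgroup Γ := M ⊓ ⨅ a, K a with hZ
  have hZn : Z.Normal := Subgroup.normal_inf_normal M (⨅ a, K a)
  have hZc : IsClosed (Z : Set Γ) := by
    rw [hZ, Subgroup.coe_inf]
    exact hMc.inter hKic
  rcases hSIM p Γ F Ω ρ hρ hSI Z hZn hZc with h0 | h0
  swap
  · exact h0
  exfalso
  -- the layers of `ad ρ`
  have hp1 : 1 < (p : ℝ) := by exact_mod_cast (Fact.out : p.Prime).one_lt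
  have hpi : (0 : ℝ) < (p : ℝ)⁻¹ := by positivity
  have hpi1 : (p : ℝ)⁻¹ < 1 := inv_lt_one_of_one_lt₀ hp1
  let e : ℕ → ℝ := fun k => ((p : ℝ)⁻¹) ^ (k + 1)
  have he : ∀ k, 0 < e k := fun k => pow_pos hpi _
  have hlim : Tendsto e atTop (𝓝 0) :=
    (tendsto_pow_atTop_nhds_zero_of_lt_one hpi.le hpi1).comp (tendsto_add_atTop_nat 1)
  let L : ℕ → Subgroup Γ := fun k => FIX_L ρ hint (e k) (he k).le
  have hemono : ∀ k l, k ≤ l → e l ≤ e k := by
    intro k l hkl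
    exact pow_le_pow_of_le_one hpi.le hpi1.le (by omega)
  have hQmono : ∀ {a b : ℝ} {g : Γ}, a ≤ b → FIX_Q ρ a g → FIX_Q ρ b g := by
    intro a b g hab h
    exact ⟨h.1.trans hab, h.2.1.trans hab, h.2.2.trans hab⟩
  have hadL : ∀ k, adKer ρ ≤ L k := by
    rintro k g ⟨c, hc⟩
    show FIX_Q ρ (e k) g
    apply FIX_Q_of ρ (c := c)
    rw [hc, sub_self]
    intro a b
    simpa using (he k).le
  have hinter : ∀ g, (∀ k, g ∈ L k) → g ∈ adKer ρ := by
    intro g hg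
    have hz : ∀ x : F, (∀ k, ‖x‖ ≤ e k) → x = 0 := by
      intro x hx
      rw [← norm_eq_zero]
      exact le_antisymm (ge_of_tendsto' hlim hx) (norm_nonneg _)
    have h1 : ρ g 0 1 = 0 := hz _ fun k => (hg k).1
    have h2 : ρ g 1 0 = 0 := hz _ fun k => (hg k).2.1
    have h3 : ρ g 0 0 - ρ g 1 1 = 0 := hz _ fun k => (hg k).2.2
    have h4 : ρ g 1 1 = ρ g 0 0 := (sub_eq_zero.mp h3).symm
    refine ⟨ρ g 0 0, ?_⟩
    ext a b
    fin_cases a <;> fin_cases b <;> simp [h1, h2, h4]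
  -- representatives
  have hfinq : Finite (Z ⧸ (adKer ρ).subgroupOf Z) := by
    have : ((adKer ρ).subgroupOf Z).FiniteIndex := ⟨h0⟩
    exact Subgroup.finite_quotient_of_finiteIndex
  have hrep : ∀ t : Z ⧸ (adKer ρ).subgroupOf Z, ∃ k : ℕ,
      (t.out : Γ) ∈ adKer ρ ∨ (t.out : Γ) ∉ L k := by
    intro t
    by_cases ht : (t.out : Γ) ∈ adKer ρ
    · exact ⟨0, Or.inl ht⟩
    · have : ∃ k, (t.out : Γ) ∉ L k := by
        by_contra hcon
        push Not at hcon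
        exact ht (hinter _ hcon)
      obtain ⟨k, hk⟩ := this
      exact ⟨k, Or.inr hk⟩
  choose kk hkk using hrep
  obtain ⟨k₀, hk₀⟩ : ∃ k₀, ∀ t, kk t ≤ k₀ := by
    have hb := (Set.finite_range kk).bddAbove
    obtain ⟨b, hb⟩ := hb
    exact ⟨b, fun t => hb ⟨t, rfl⟩⟩
  let U : Subgroup Γ := FIX_U ρ hint (e k₀) (he k₀).le
  have hUo : IsOpen (U : Set Γ) := FIX_U_open ρ hint hρ (e k₀) (he k₀)
  have hUn : U.Normal := FIX_U_normal ρ hint (e k₀) (he k₀).le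
  have hUL : ∀ g ∈ U, g ∈ L k₀ := by
    intro g hg
    show FIX_Q ρ (e k₀) g
    apply FIX_Q_of ρ (c := 1)
    rw [one_smul]
    exact hg
  have hZU : ∀ z ∈ Z, z ∈ U → z ∈ adKer ρ := by
    intro z hz hzU
    let t : Z ⧸ (adKer ρ).subgroupOf Z := QuotientGroup.mk ⟨z, hz⟩
    have h1 : ((t.out : Z) : Γ)⁻¹ * z ∈ adKer ρ := by
      have h2 : (QuotientGroup.mk (t.out) : Z ⧸ (adKer ρ).subgroupOf Z) =
          QuotientGroup.mk (⟨z, hz⟩ : Z) := by
        rw [QuotientGroup.out_eq']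
      have h3 := QuotientGroup.eq.mp h2
      rw [Subgroup.mem_subgroupOf] at h3
      exact h3
    rcases hkk t with h2 | h2
    · have := (adKer ρ).mul_mem h2 h1
      rwa [mul_inv_cancel_left] at this
    · exfalso
      apply h2
      have h3 : ((t.out : Z) : Γ) = z * (((t.out : Z) : Γ)⁻¹ * z)⁻¹ := by group
      have h4 : z ∈ L (kk t) := hQmono (hemono _ _ (hk₀ t)) (hUL z hzU)
      rw [h3]
      exact (L (kk t)).mul_mem h4 ((L (kk t)).inv_mem (hadL _ h1))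
  -- the law
  set M' : Subgroup Γ := M ⊓ U with hM'
  have hM'n : M'.Normal := Subgroup.normal_inf_normal M U
  have hM'c : IsClosed (M' : Set Γ) := by
    rw [hM', Subgroup.coe_inf]
    exact hMc.inter (Subgroup.isClosed_of_isOpen _ hUo)
  have hlaw : ∀ x ∈ M', ∀ y ∈ M', cmt m.factorial x y ∈ adKer ρ := by
    intro x hx y hy
    apply hinter
    intro k
    refine hLPC p m Γ M' hM'c A q K hK (L k) (FIX_L_normal ρ hint (e k) (he k).le)
      (FIX_L_open ρ hint hρ (e k) (he k)) ?_ ?_ x hx y hy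
    · intro g hg
      have hg1 : FIX_Sm (e k₀) (ρ g - 1) := hg.2
      have hg2 : FIX_Sm ((p : ℝ)⁻¹) (ρ g - 1) := by
        refine FIX_mono ?_ hg1
        calc e k₀ ≤ e 0 := hemono 0 k₀ (Nat.zero_le _)
          _ = (p : ℝ)⁻¹ := by simp [e]
      refine ⟨k, ?_⟩
      show FIX_Q ρ (e k) (g ^ p ^ k)
      apply FIX_Q_of ρ (c := 1)
      rw [one_smul]
      have := FIX_powpow ρ hint p ((p : ℝ)⁻¹) (FIX_norm_p p F).le hpi1.le k hpi.le le_rfl hg2
      rwa [← pow_succ] at this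
    · intro g hg
      have hgM : g ∈ M := hg.1.1
      have hgU : g ∈ U := hg.1.2
      exact hadL k (hZU g ⟨hgM, hg.2⟩ hgU)
  -- finite index
  set Γ₁ : Subgroup Γ := M' ⊔ adKer ρ with hΓ₁
  have hfin : Γ₁.FiniteIndex := by
    have hUfin : U.FiniteIndex := by
      have := Subgroup.quotient_finite_of_isOpen U hUo
      exact Subgroup.finiteIndex_of_finite_quotient
    have h1 : M'.relIndex M ≠ 0 := by
      rw [hM', Subgroup.inf_relIndex_left]
      intro h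
      exact hUfin.index_ne_zero (by
        have := Subgroup.relIndex_dvd_index_of_normal U M
        rw [h] at this
        exact Nat.eq_zero_of_zero_dvd this)
    have h2 : Γ₁.relIndex M ≠ 0 := fun h =>
      h1 (Subgroup.relIndex_eq_zero_of_le_left (le_sup_left : M' ≤ Γ₁) h)
    have hn : Γ₁.Normal := Subgroup.sup_normal M' (adKer ρ)
    have h3 : Γ₁.relIndex (M ⊔ adKer ρ) ≠ 0 := by
      have h4 : M ⊔ adKer ρ = M ⊔ Γ₁ := by
        rw [hΓ₁, ← sup_assoc, sup_eq_left.mpr (inf_le_left : M' ≤ M)]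
      rw [h4, Subgroup.relIndex_sup_right]
      exact h2
    have h4 : Γ₁ ≤ M ⊔ adKer ρ := sup_le_sup_right inf_le_left _
    constructor
    rw [← Subgroup.relIndex_mul_index h4]
    exact mul_ne_zero h3 hMfin.index_ne_zero
  have hSI1 := SI.restrict (bc (algebraMap F Ω) ρ) hSI Γ₁ hfin
  obtain ⟨x, y, hxy⟩ := hLWC Ω Γ₁ _ hSI1 m.factorial (Nat.factorial_pos m)
  apply hxy
  obtain ⟨x', hx', kx, hkx, hx⟩ := Subgroup.mem_sup_of_normal_right.mp x.2
  obtain ⟨y', hy', ky, hky, hy⟩ := Subgroup.mem_sup_of_normal_right.mp y.2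
  have h1 : cmt m.factorial (x : Γ) (y : Γ) ∈ adKer ρ := by
    have h2 := hlaw x' hx' y' hy'
    rw [← QuotientGroup.eq_one_iff] at h2 ⊢
    have h3 : (QuotientGroup.mk (x : Γ) : Γ ⧸ adKer ρ) = QuotientGroup.mk x' := by
      rw [← hx, QuotientGroup.mk_mul, (QuotientGroup.eq_one_iff kx).mpr hkx, mul_one]
    have h4 : (QuotientGroup.mk (y : Γ) : Γ ⧸ adKer ρ) = QuotientGroup.mk y' := by
      rw [← hy, QuotientGroup.mk_mul, (QuotientGroup.eq_one_iff ky).mpr hky, mul_one]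
    have h5 := FIX_cmt (QuotientGroup.mk' (adKer ρ)) m.factorial (x : Γ) (y : Γ)
    have h6 := FIX_cmt (QuotientGroup.mk' (adKer ρ)) m.factorial x' y'
    simp only [QuotientGroup.mk'_apply] at h5 h6
    rw [h5, h3, h4, ← h6]
    exact h2
  obtain ⟨c, hc⟩ := h1
  refine ⟨algebraMap F Ω c, ?_⟩
  have h2 : ((cmt m.factorial x y : Γ₁) : Γ) = cmt m.factorial (x : Γ) (y : Γ) :=
    FIX_cmt Γ₁.subtype m.factorial x y
  show bc (algebraMap F Ω) ρ ((cmt m.factorial x y : Γ₁) : Γ) = _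
  rw [h2]
  show (ρ (cmt m.factorial (x : Γ) (y : Γ))).map (algebraMap F Ω) = _
  rw [hc]
  ext a b
  simp only [Matrix.map_apply, Matrix.smul_apply, smul_eq_mul, map_mul, Matrix.one_apply]
  split_ifs <;> simp

end Pool.Agent.AX
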