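import Pool.Agent.helper44.AX.SpecA
import Pool.Agent.helper67.RG.TB
import Pool.Agent.helper21.FF.FF

/-!
# AX, row ROT
-/

set_option autoImplicit false

namespace Pool.Agent.AX

open Matrix Polynomial Topology Filter Pool.Agent.GO Pool.Agent.AR Pool.Agent.RG Pool.Agent.HZ
  Pool.Agent.DS

theorem ROT_ne {Γ F m : Type} [Group Γ] [Field F] [Fintype m] [DecidableEq m]
    (W : Γ →* Matrix m m F) (s : Γ) {x : F} (h : (W s).charpoly.IsRoot x) : x ≠ 0 := by
  rintro rfl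
  rw [← eig_iff_root] at h
  obtain ⟨y, hy, h⟩ := h
  apply hy
  rw [zero_smul] at h
  have h1 : W s⁻¹ *ᵥ (W s *ᵥ y) = y := by
    rw [Matrix.mulVec_mulVec, hom_inv_mul', Matrix.one_mulVec]
  rw [← h1, h, Matrix.mulVec_zero]

theorem ROT : ROT_stmt := by
  intro Γ _ _ Ω _ _ _ r n V ρ hA
  classical
  obtain ⟨U, a, b, hU, hab⟩ := hA
  refine ⟨U, (∑ i, n i) ^ (a + b), hU, fun g hg hch => ?_⟩
  set W := dirSum V with hW
  have hc : ∀ x, (W (g x)).charpoly = (W (g 0)).charpoly := by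
    intro x
    rw [hW, charpoly_dirSum', charpoly_dirSum']
    exact Finset.prod_congr rfl fun i _ => hch x 0 i
  set c := (W (g 0)).charpoly with hcdef
  have hc0 : c ≠ 0 := (Matrix.charpoly_monic _).ne_zero
  set R := c.roots.toFinset with hR
  have hcard : R.card ≤ ∑ i, n i := by
    calc R.card ≤ c.roots.card := Multiset.toFinset_card_le _
      _ ≤ c.natDegree := Polynomial.card_roots' c
      _ = Fintype.card (Σ i : Fin r, Fin (n i)) := Matrix.charpoly_natDegree_eq_dim _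
      _ = ∑ i, n i := by simp
  have key : ∀ x, ∃ (γ : Fin a → R) (ε : Fin b → R),
      tt ρ (g x) = (∏ k, (γ k : Ω)) / (∏ k, (ε k : Ω)) + 2 +
        ((∏ k, (γ k : Ω)) / (∏ k, (ε k : Ω)))⁻¹ := by
    intro x
    obtain ⟨α, β, γ, ε, hα, hβ, hs, hp, hγ, hε, he⟩ := ad_roots W ρ U a b hab (g x) (hg x)
    have hmem : ∀ y, (W (g x)).charpoly.IsRoot y → y ∈ R := by
      intro y hy
      rw [hR, Multiset.mem_toFinset, Polynomial.mem_roots hc0]
      rw [hc x] at hy
      exact hy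
    refine ⟨fun k => ⟨γ k, hmem _ (hγ k)⟩, fun k => ⟨ε k, hmem _ (hε k)⟩, ?_⟩
    show tt ρ (g x) = (∏ k, γ k) / (∏ k, ε k) + 2 + ((∏ k, γ k) / (∏ k, ε k))⁻¹
    have hε0 : ∏ k, ε k ≠ 0 := Finset.prod_ne_zero_iff.mpr fun k _ => ROT_ne W (g x) (hε k)
    rw [← he, mul_div_assoc, div_self hε0, mul_one]
    unfold tt
    rw [← hs, ← hp]
    field_simp
    ring
  choose γ ε hte using key
  have hlt : Fintype.card ((Fin a → R) × (Fin b → R)) <
      Fintype.card (Fin ((∑ i, n i) ^ (a + b) + 1)) := by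
    rw [Fintype.card_prod, Fintype.card_fun, Fintype.card_fun, Fintype.card_fin, Fintype.card_fin,
      Fintype.card_fin, Fintype.card_coe, ← pow_add]
    exact Nat.lt_succ_of_le (Nat.pow_le_pow_left hcard _)
  obtain ⟨x, y, hxy, he⟩ := Fintype.exists_ne_map_eq_of_card_lt
    (fun x => ((γ x, ε x) : (Fin a → R) × (Fin b → R))) hlt
  refine ⟨x, y, hxy, ?_⟩
  rw [Prod.mk.injEq] at he
  rw [hte x, hte y, he.1, he.2]

end Pool.Agent.AX
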