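import Pool.Agent.helper44.AX.SpecA

/-!
# AX, rows YV and YP
-/

set_option autoImplicit false

namespace Pool.Agent.AX

open Matrix Polynomial Topology Filter Pool.Agent.GO Pool.Agent.AR Pool.Agent.RG Pool.Agent.HZ
  Pool.Agent.FLD

section

variable {q n : ℕ} [Fact q.Prime] {Γ : Type} [Group Γ]

/-- kernel modulo `q ^ (s + 1)` -/
noncomputable def YW_L (V : Γ →* Matrix (Fin n) (Fin n) ℤ_[q]) (s : ℕ) : Subgroup Γ :=
  (mapHom (PadicInt.toZModPow (p := q) (s + 1)) V).ker

theorem YW_mem (V : Γ →* Matrix (Fin n) (Fin n) ℤ_[q]) (s : ℕ) (g : Γ) :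
    g ∈ YW_L V s ↔ ∀ a b, (q : ℤ_[q]) ^ (s + 1) ∣ V g a b - (1 : Matrix (Fin n) (Fin n) ℤ_[q]) a b := by
  have h1 : ∀ x : ℤ_[q], (q : ℤ_[q]) ^ (s + 1) ∣ x ↔ PadicInt.toZModPow (s + 1) x = 0 := by
    intro x
    rw [← RingHom.mem_ker, PadicInt.ker_toZModPow, Ideal.mem_span_singleton]
  rw [YW_L, MonoidHom.mem_ker]
  have h2 : mapHom (PadicInt.toZModPow (p := q) (s + 1)) V g =
    (V g).map (PadicInt.toZModPow (p := q) (s + 1)) := rfl
  rw [h2]
  constructor
  · intro h a b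
    rw [h1, map_sub, sub_eq_zero]
    have h3 := congrFun (congrFun h a) b
    rw [Matrix.map_apply] at h3
    rw [h3, Matrix.one_apply, Matrix.one_apply]
    split_ifs <;> simp
  · intro h
    ext a b
    have h3 := (h1 _).mp (h a b)
    rw [map_sub, sub_eq_zero] at h3
    rw [Matrix.map_apply, h3, Matrix.one_apply, Matrix.one_apply]
    split_ifs <;> simp

theorem YW_mem_iff (V : Γ →* Matrix (Fin n) (Fin n) ℤ_[q]) (s : ℕ) (g : Γ) :
    g ∈ YW_L V s ↔ ∃ X : Matrix (Fin n) (Fin n) ℤ_[q], V g = 1 + ((q : ℤ_[q]) ^ (s + 1)) • X := by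
  rw [YW_mem]
  constructor
  · intro h
    choose X hX using h
    refine ⟨Matrix.of X, ?_⟩
    ext a b
    rw [Matrix.add_apply, Matrix.smul_apply, Matrix.of_apply, smul_eq_mul, ← hX a b]
    ring
  · rintro ⟨X, hX⟩ a b
    rw [hX, Matrix.add_apply, Matrix.smul_apply, smul_eq_mul]
    exact ⟨X a b, by ring⟩

theorem YW_open [TopologicalSpace Γ] (V : Γ →* Matrix (Fin n) (Fin n) ℤ_[q]) (hV : Continuous V)
    (s : ℕ) : IsOpen (YW_L V s : Set Γ) := by
  have h1 : (YW_L V s : Set Γ) = ⋂ a, ⋂ b,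
      {g | ‖V g a b - (1 : Matrix (Fin n) (Fin n) ℤ_[q]) a b‖ < (q : ℝ) ^ (-((s + 1 : ℕ) : ℤ) + 1)} := by
    ext g
    simp only [SetLike.mem_coe, Set.mem_iInter, Set.mem_ofPred_eq]
    rw [YW_mem]
    refine forall_congr' fun a => forall_congr' fun b => ?_
    rw [← PadicInt.norm_le_pow_iff_norm_lt_pow_add_one, PadicInt.norm_le_pow_iff_mem_span_pow,
      Ideal.mem_span_singleton]
  rw [h1]
  refine isOpen_iInter_of_finite fun a => isOpen_iInter_of_finite fun b => ?_
  refine isOpen_lt ?_ continuous_const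
  exact ((hV.matrix_elem a b).sub continuous_const).norm

theorem YW_normal (V : Γ →* Matrix (Fin n) (Fin n) ℤ_[q]) (s : ℕ) : (YW_L V s).Normal := by
  unfold YW_L
  infer_instance

theorem YW_anti (V : Γ →* Matrix (Fin n) (Fin n) ℤ_[q]) : Antitone (YW_L V) := by
  intro s t hst g hg
  rw [YW_mem] at hg ⊢
  intro a b
  exact (pow_dvd_pow _ (by omega)).trans (hg a b)

theorem YW_inf (V : Γ →* Matrix (Fin n) (Fin n) ℤ_[q]) : V.ker = ⨅ s, YW_L V s := by
  ext g
  rw [Subgroup.mem_iInf]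
  constructor
  · intro h s
    rw [YW_mem_iff]
    refine ⟨0, ?_⟩
    rw [MonoidHom.mem_ker] at h
    rw [h, smul_zero, add_zero]
  · intro h
    rw [MonoidHom.mem_ker]
    ext a b
    rw [← sub_eq_zero]
    by_contra hne
    have h2 : ∀ s, PadicInt.toZModPow s (V g a b - (1 : Matrix (Fin n) (Fin n) ℤ_[q]) a b) = 0 := by
      intro s
      rw [← RingHom.mem_ker, PadicInt.ker_toZModPow, Ideal.mem_span_singleton]
      exact (pow_dvd_pow _ (Nat.le_succ s)).trans ((YW_mem V s g).mp (h s) a b)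
    apply hne
    rw [← PadicInt.ext_of_toZModPow]
    intro s
    rw [h2, map_zero]

theorem YW_pow (g : Γ) (V : Γ →* Matrix (Fin n) (Fin n) ℤ_[q]) (s : ℕ) (h : g ∈ YW_L V s) :
    g ^ q ∈ YW_L V (s + 1) := by
  rw [YW_mem_iff] at h ⊢
  obtain ⟨X, hX⟩ := h
  have h1 : ∀ i, ∃ Z : Matrix (Fin n) (Fin n) ℤ_[q], (V g) ^ i = 1 + (q : ℤ_[q]) • Z := by
    intro i
    induction i with
    | zero => exact ⟨0, by simp⟩
    | succ i ih =>
      obtain ⟨Z, hZ⟩ := ih
      have hX' : V g = 1 + (q : ℤ_[q]) • (((q : ℤ_[q]) ^ s) • X) := by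
        rw [smul_smul, ← pow_succ']
        exact hX
      generalize ((q : ℤ_[q]) ^ s) • X = Y at hX'
      refine ⟨Z + Y + (q : ℤ_[q]) • (Z * Y), ?_⟩
      rw [pow_succ, hZ, hX']
      simp only [mul_add, add_mul, one_mul, mul_one, smul_mul_assoc, mul_smul_comm,
        smul_add]
      abel
  choose Z hZ using h1
  have h2 : V (g ^ q) - 1 = (V g - 1) * ∑ i ∈ Finset.range q, V g ^ i := by
    rw [mul_geom_sum, map_pow]
  have h3 : ∑ i ∈ Finset.range q, V g ^ i =
      (q : ℤ_[q]) • (1 + ∑ i ∈ Finset.range q, Z i) := by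
    rw [smul_add, Finset.smul_sum]
    simp_rw [hZ]
    rw [Finset.sum_add_distrib, Finset.sum_const, Finset.card_range, Nat.cast_smul_eq_nsmul]
  refine ⟨X * (1 + ∑ i ∈ Finset.range q, Z i), ?_⟩
  rw [← sub_eq_iff_eq_add', h2, h3, hX, add_sub_cancel_left]
  rw [smul_mul_smul_comm, pow_succ (q : ℤ_[q]) (s + 1)]

theorem YW_pow' (g : Γ) (V : Γ →* Matrix (Fin n) (Fin n) ℤ_[q]) (h : g ∈ YW_L V 0) (s : ℕ) :
    g ^ q ^ s ∈ YW_L V s := by
  induction s with
  | zero => simpa using h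
  | succ s ih =>
    rw [pow_succ, pow_mul]
    exact YW_pow _ V s ih

theorem YW_zero (V : Γ →* Matrix (Fin n) (Fin n) ℤ_[q]) (g : Γ) :
    g ∈ YW_L V 0 ↔ mapHom (PadicInt.toZMod (p := q)) V g = 1 := by
  rw [YW_mem]
  have h1 : ∀ x : ℤ_[q], (q : ℤ_[q]) ^ (0 + 1) ∣ x ↔ PadicInt.toZMod x = 0 := by
    intro x
    rw [← RingHom.mem_ker, PadicInt.ker_toZMod, PadicInt.maximalIdeal_eq_span_p,
      Ideal.mem_span_singleton, zero_add, pow_one]
  have h2 : mapHom (PadicInt.toZMod (p := q)) V g =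
    (V g).map (PadicInt.toZMod (p := q)) := rfl
  rw [h2]
  constructor
  · intro h
    ext a b
    have h3 := (h1 _).mp (h a b)
    rw [map_sub, sub_eq_zero] at h3
    rw [Matrix.map_apply, h3, Matrix.one_apply, Matrix.one_apply]
    split_ifs <;> simp
  · intro h a b
    rw [h1, map_sub, sub_eq_zero]
    have h3 := congrFun (congrFun h a) b
    rw [Matrix.map_apply] at h3
    rw [h3, Matrix.one_apply, Matrix.one_apply]
    split_ifs <;> simp

end

theorem YV : YV_stmt := by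
  intro q n m _ hnm Γ _ _ V hV
  refine ⟨AlgebraicClosure (ZMod q), inferInstance, inferInstance,
    charP_of_injective_algebraMap (algebraMap (ZMod q) (AlgebraicClosure (ZMod q))).injective q, n,
    mapHom ((algebraMap (ZMod q) (AlgebraicClosure (ZMod q))).comp PadicInt.toZMod) V, YW_L V, hnm,
    YW_open V hV, YW_normal V, YW_anti V, ?_, ?_, YW_inf V⟩
  · intro s g hg
    have h1 := (YW_zero V g).mp (YW_anti V (Nat.zero_le s) hg)
    have h2 : mapHom ((algebraMap (ZMod q) (AlgebraicClosure (ZMod q))).comp PadicInt.toZMod) V g =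
      (mapHom (PadicInt.toZMod (p := q)) V g).map
        (algebraMap (ZMod q) (AlgebraicClosure (ZMod q))) := rfl
    rw [h2, h1]
    exact Matrix.map_one _ (map_zero _) (map_one _)
  · intro g hg s
    refine ⟨s, YW_pow' g V ?_ s⟩
    rw [YW_zero]
    have h2 : mapHom ((algebraMap (ZMod q) (AlgebraicClosure (ZMod q))).comp PadicInt.toZMod) V g =
      (mapHom (PadicInt.toZMod (p := q)) V g).map
        (algebraMap (ZMod q) (AlgebraicClosure (ZMod q))) := rfl
    rw [h2] at hg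
    ext a b
    have h3 := congrFun (congrFun hg a) b
    rw [Matrix.map_apply] at h3
    apply (algebraMap (ZMod q) (AlgebraicClosure (ZMod q))).injective
    rw [h3, Matrix.one_apply, Matrix.one_apply]
    split_ifs <;> simp

theorem YP : YP_stmt := by
  intro p r _ n Γ _ _ V hV
  refine ⟨fun s => ⨅ i, YW_L (V i) s, ?_, ?_, ?_, ?_, ?_⟩
  · intro s
    rw [Subgroup.coe_iInf]
    exact isOpen_iInter_of_finite fun i => YW_open (V i) (hV i) s
  · intro s
    exact Subgroup.normal_iInf_normal fun i => YW_normal (V i) s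
  · intro s t hst
    exact iInf_mono fun i => YW_anti (V i) hst
  · intro g hg s
    refine ⟨s, ?_⟩
    rw [Subgroup.mem_iInf]
    intro i
    refine YW_pow' g (V i) ?_ s
    rw [YW_zero]
    have h1 : g ∈ (mapHom (PadicInt.toZMod (p := p)) (V i)).ker := by
      unfold kerV at hg
      exact (Subgroup.mem_iInf.mp hg) i
    exact h1
  · ext g
    unfold kerV
    rw [Subgroup.mem_iInf, Subgroup.mem_iInf]
    simp_rw [YW_inf, Subgroup.mem_iInf]
    exact forall_comm

end Pool.Agent.AX
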