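import Pool.Agent.helper44.AX.FIX

/-!
# AX, row YA
-/

set_option autoImplicit false

namespace Pool.Agent.AX

open Matrix Polynomial Topology Filter Pool.Agent.GO Pool.Agent.AR Pool.Agent.RG Pool.Agent.HZ
  Pool.Agent.FLD

section red

variable {F κ : Type} [NormedField F] [IsUltrametricDist F] [Field κ] {red : F → κ}

omit [IsUltrametricDist F] in
theorem YA_zero (h : IsRed red) : red 0 = 0 := by
  rw [h.zero_iff 0 (by simp)]
  simp

omit [IsUltrametricDist F] in
theorem YA_eq [IsUltrametricDist F] (h : IsRed red) {x y : F} (hx : ‖x‖ ≤ 1) (hy : ‖y‖ ≤ 1) :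
    red x = red y ↔ ‖x - y‖ < 1 := by
  have h1 : ‖x - y‖ ≤ 1 := by
    rw [sub_eq_add_neg]
    refine (IsUltrametricDist.norm_add_le_max _ _).trans (max_le hx ?_)
    rw [norm_neg]; exact hy
  have h2 := h.add (x - y) y h1 hy
  rw [sub_add_cancel] at h2
  rw [← h.zero_iff _ h1]
  constructor
  · intro he
    rw [he] at h2
    exact (left_eq_add.mp (by rw [add_comm]; exact h2))
  · intro he
    rw [h2, he, zero_add]

/-- the reduction of an integral representation -/
noncomputable def YA_S (h : IsRed red) {Γ : Type} [Group Γ] (ρ : Γ →* Matrix (Fin 2) (Fin 2) F)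
    (hint : ∀ g a b, ‖ρ g a b‖ ≤ 1) : Γ →* Matrix (Fin 2) (Fin 2) κ where
  toFun g := (ρ g).map red
  map_one' := by
    rw [map_one]
    ext a b
    rw [Matrix.map_apply, Matrix.one_apply, Matrix.one_apply]
    split_ifs
    · exact h.one
    · exact YA_zero h
  map_mul' g g' := by
    rw [map_mul]
    ext a b
    rw [Matrix.map_apply, Matrix.mul_apply, Matrix.mul_apply, Fin.sum_univ_two, Fin.sum_univ_two,
      Matrix.map_apply, Matrix.map_apply, Matrix.map_apply, Matrix.map_apply]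
    have hm : ∀ c, ‖ρ g a c * ρ g' c b‖ ≤ 1 := by
      intro c
      rw [norm_mul]
      exact mul_le_one₀ (hint _ _ _) (norm_nonneg _) (hint _ _ _)
    rw [h.add _ _ (hm 0) (hm 1), h.mul _ _ (hint _ _ _) (hint _ _ _),
      h.mul _ _ (hint _ _ _) (hint _ _ _)]

end red

theorem YA_scalar_iff {κ Γ : Type} [Field κ] [Group Γ] (S : Γ →* Matrix (Fin 2) (Fin 2) κ)
    (g : Γ) : ad0 S g = 1 ↔ S g 0 1 = 0 ∧ S g 1 0 = 0 ∧ S g 0 0 = S g 1 1 := by
  constructor
  · intro h
    have h1 : ∀ x : Fin 3 → κ, S g * em x = em x * S g := by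
      intro x
      have h2 := em_ad0 S g x
      rw [h, Matrix.one_mulVec] at h2
      calc S g * em x = S g * em x * (S g⁻¹ * S g) := by rw [hom_inv_mul', mul_one]
        _ = (S g * em x * S g⁻¹) * S g := by simp only [mul_assoc]
        _ = em x * S g := by rw [← h2]
    have h2 := h1 ![1, 0, 0]
    have h3 := h1 ![0, 0, 1]
    have a1 := congrFun (congrFun h2 0) 0
    have a2 := congrFun (congrFun h2 0) 1
    have b1 := congrFun (congrFun h3 0) 0
    simp [Pool.Agent.AR.em, Matrix.mul_apply, Fin.sum_univ_two] at a1 a2 b1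
    exact ⟨b1, a1.symm, a2⟩
  · rintro ⟨h1, h2, h3⟩
    have hs : S g = (S g 0 0) • (1 : Matrix (Fin 2) (Fin 2) κ) := by
      ext a b
      fin_cases a <;> fin_cases b <;> simp [h1, h2, h3]
    ext i j
    have h4 : ad0 S g *ᵥ Pi.single j 1 = Pi.single j 1 := by
      apply em_injective
      rw [em_ad0]
      calc S g * em (Pi.single j 1) * S g⁻¹
          = ((S g 0 0) • (1 : Matrix (Fin 2) (Fin 2) κ)) * em (Pi.single j 1) * S g⁻¹ := by
            rw [← hs]
        _ = em (Pi.single j 1) * (((S g 0 0) • (1 : Matrix (Fin 2) (Fin 2) κ)) * S g⁻¹) := by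
            simp only [Matrix.smul_mul, one_mul, Matrix.mul_smul]
        _ = em (Pi.single j 1) := by rw [← hs, hom_mul_inv', mul_one]
    have h5 := congrFun h4 i
    rw [Matrix.mulVec_single_one] at h5
    show ad0 S g i j = _
    rw [show ad0 S g i j = (ad0 S g).col j i from rfl, h5, Matrix.one_apply, Pi.single_apply]

section mats

variable {F : Type} [NormedField F] [IsUltrametricDist F]

theorem YA_pow1 (A : Matrix (Fin 2) (Fin 2) F) {δ : ℝ} (hδ : 0 ≤ δ) (hδ1 : δ ≤ 1)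
    (hA : FIX_Sm δ (A - 1)) (i : ℕ) : FIX_Sm δ (A ^ i - 1) := by
  have hA1 : FIX_Sm 1 A := by
    have : A = (A - 1) + 1 := by abel
    rw [this]
    refine FIX_add (FIX_mono hδ1 hA) ?_
    intro a b
    rw [Matrix.one_apply]
    split_ifs <;> simp
  induction i with
  | zero =>
    intro a b
    simpa using hδ
  | succ i ih =>
    have : A ^ (i + 1) - 1 = (A ^ i - 1) * A + (A - 1) := by rw [pow_succ]; noncomm_ring
    rw [this]
    exact FIX_add (FIX_mul2 hδ ih hA1) hA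

theorem YA_pow2 (p : ℕ) (lam : ℝ) (hlam : ‖(p : F)‖ ≤ lam) (hl1 : lam ≤ 1) {δ : ℝ} (hδ : 0 ≤ δ)
    (hδl : δ ≤ lam) (A : Matrix (Fin 2) (Fin 2) F) (hA : FIX_Sm δ (A - 1)) :
    FIX_Sm (lam * δ) (A ^ p - 1) := by
  have hl0 : 0 ≤ lam := hδ.trans hδl
  have h1 : A ^ p - 1 = (∑ i ∈ Finset.range p, A ^ i) * (A - 1) := (geom_sum_mul A p).symm
  have h2 : FIX_Sm lam (∑ i ∈ Finset.range p, A ^ i) := by
    have h3 : (∑ i ∈ Finset.range p, A ^ i) =
        (p : F) • (1 : Matrix (Fin 2) (Fin 2) F) + ∑ i ∈ Finset.range p, (A ^ i - 1) := by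
      rw [Finset.sum_sub_distrib, Finset.sum_const, Finset.card_range, ← Nat.cast_smul_eq_nsmul F]
      abel
    rw [h3]
    refine FIX_add ?_ ?_
    · intro a b
      rw [Matrix.smul_apply, smul_eq_mul, Matrix.one_apply]
      split_ifs
      · rw [mul_one]; exact hlam
      · rw [mul_zero, norm_zero]; exact hl0
    · have h5 : ∀ s : Finset ℕ, FIX_Sm lam (∑ i ∈ s, (A ^ i - 1)) := by
        classical
        intro s
        induction s using Finset.induction_on with
        | empty =>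
          intro a b
          simpa using hl0
        | insert a s ha ih =>
          rw [Finset.sum_insert ha]
          exact FIX_add (FIX_mono hδl (YA_pow1 A hδ (hδl.trans hl1) hA a)) ih
      exact h5 _
  rw [h1]
  exact FIX_mul hl0 h2 hA

theorem YA_pow3 (p : ℕ) (lam : ℝ) (hlam : ‖(p : F)‖ ≤ lam) (hl1 : lam ≤ 1) {δ : ℝ} (hδ : 0 ≤ δ)
    (hδl : δ ≤ lam) (A : Matrix (Fin 2) (Fin 2) F) (hA : FIX_Sm δ (A - 1)) (k : ℕ) :
    FIX_Sm (lam ^ k * δ) (A ^ p ^ k - 1) := by
  have hl0 : 0 ≤ lam := hδ.trans hδl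
  induction k with
  | zero => simpa using hA
  | succ k ih =>
    have h1 : lam ^ k * δ ≤ lam := by
      calc lam ^ k * δ ≤ 1 * δ := mul_le_mul_of_nonneg_right (pow_le_one₀ hl0 hl1) hδ
        _ = δ := one_mul δ
        _ ≤ lam := hδl
    have := YA_pow2 p lam hlam hl1 (mul_nonneg (pow_nonneg hl0 k) hδ) h1 _ ih
    rw [← pow_mul, ← pow_succ] at this
    rw [pow_succ', mul_assoc]
    exact this

end mats

theorem YA : YA_stmt := by
  intro p m _ hm Γ _ _ _ F κ _ _ _ _ _ _ red hred ρ hρ hint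
  have hultra : IsUltrametricDist F := IsUltrametricDist.of_normedAlgebra ℚ_[p]
  have hp1 : 1 < (p : ℝ) := by exact_mod_cast (Fact.out : p.Prime).one_lt
  have hpi : (0 : ℝ) < (p : ℝ)⁻¹ := by positivity
  have hpi1 : (p : ℝ)⁻¹ < 1 := inv_lt_one_of_one_lt₀ hp1
  let e : ℕ → ℝ := fun k => ((p : ℝ)⁻¹) ^ (k + 1)
  have he : ∀ k, 0 < e k := fun k => pow_pos hpi _
  have he1 : ∀ k, e k < 1 := fun k => pow_lt_one₀ hpi.le hpi1 (by omega)
  have hlim : Tendsto e atTop (𝓝 0) :=
    (tendsto_pow_atTop_nhds_zero_of_lt_one hpi.le hpi1).comp (tendsto_add_atTop_nat 1)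
  have hemono : ∀ k l, k ≤ l → e l ≤ e k := by
    intro k l hkl
    exact pow_le_pow_of_le_one hpi.le hpi1.le (by omega)
  let L : ℕ → Subgroup Γ := fun k => FIX_L ρ hint (e k) (he k).le
  set S := YA_S hred ρ hint with hS
  have hSa : ∀ g a b, S g a b = red (ρ g a b) := fun g a b => rfl
  refine ⟨κ, inferInstance, inferInstance, inferInstance, 3, ad0 S, L, hm,
    fun s => FIX_L_open ρ hint hρ (e s) (he s), fun s => FIX_L_normal ρ hint (e s) (he s).le,
    ?_, ?_, ?_, ?_⟩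
  · intro k l hkl g hg
    exact ⟨hg.1.trans (hemono _ _ hkl), hg.2.1.trans (hemono _ _ hkl),
      hg.2.2.trans (hemono _ _ hkl)⟩
  · intro s g hg
    rw [YA_scalar_iff]
    refine ⟨?_, ?_, ?_⟩
    · rw [hSa, hred.zero_iff _ (hint _ _ _)]
      exact hg.1.trans_lt (he1 s)
    · rw [hSa, hred.zero_iff _ (hint _ _ _)]
      exact hg.2.1.trans_lt (he1 s)
    · rw [hSa, hSa, YA_eq hred (hint _ _ _) (hint _ _ _)]
      exact hg.2.2.trans_lt (he1 s)
  · intro g hg s
    rw [YA_scalar_iff, hSa, hSa, hSa, hSa, hred.zero_iff _ (hint _ _ _),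
      hred.zero_iff _ (hint _ _ _), YA_eq hred (hint _ _ _) (hint _ _ _)] at hg
    obtain ⟨h1, h2, h3⟩ := hg
    -- the scalar is a unit
    have hc1 : ‖ρ g 0 0‖ = 1 := by
      by_contra hne
      have hlt : ‖ρ g 0 0‖ < 1 := lt_of_le_of_ne (hint _ _ _) hne
      have hdet := FIX_det ρ hint g
      rw [Matrix.det_fin_two] at hdet
      have hlt2 : ‖ρ g 0 0 * ρ g 1 1 - ρ g 0 1 * ρ g 1 0‖ < 1 := by
        rw [sub_eq_add_neg]
        refine (IsUltrametricDist.norm_add_le_max _ _).trans_lt (max_lt ?_ ?_)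
        · rw [norm_mul]
          exact mul_lt_one_of_nonneg_of_lt_one_left (norm_nonneg _) hlt (hint _ _ _)
        · rw [norm_neg, norm_mul]
          exact mul_lt_one_of_nonneg_of_lt_one_left (norm_nonneg _) h1 (hint _ _ _)
      rw [hdet] at hlt2
      exact lt_irrefl _ hlt2
    have hc0 : ρ g 0 0 ≠ 0 := by
      intro h0
      rw [h0, norm_zero] at hc1
      exact zero_ne_one hc1
    let δ : ℝ := max ‖ρ g 0 1‖ (max ‖ρ g 1 0‖ ‖ρ g 0 0 - ρ g 1 1‖)
    have hδ0 : 0 ≤ δ := (norm_nonneg _).trans (le_max_left _ _)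
    have hδ1 : δ < 1 := max_lt h1 (max_lt h2 h3)
    let lam : ℝ := max ‖(p : F)‖ δ
    have hl1 : lam < 1 := max_lt (by rw [FIX_norm_p p F]; exact hpi1) hδ1
    have hl0 : 0 ≤ lam := hδ0.trans (le_max_right _ _)
    have hQ : FIX_Q ρ δ g := ⟨le_max_left _ _, (le_max_left _ _).trans (le_max_right _ _),
      (le_max_right _ _).trans (le_max_right _ _)⟩
    have hQ2 := FIX_Q_to ρ hδ0 hQ
    set c := ρ g 0 0 with hc
    have hcinv : ‖c⁻¹‖ ≤ 1 := by rw [norm_inv, hc1, inv_one]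
    have hA : FIX_Sm δ (c⁻¹ • ρ g - 1) := by
      have : c⁻¹ • ρ g - 1 = c⁻¹ • (ρ g - c • 1) := by
        rw [smul_sub, smul_smul, inv_mul_cancel₀ hc0, one_smul]
      rw [this]
      exact FIX_smul hδ0 hcinv hQ2
    have hlim2 : Tendsto (fun k : ℕ => lam ^ k * δ) atTop (𝓝 0) := by
      have := (tendsto_pow_atTop_nhds_zero_of_lt_one hl0 hl1).mul_const δ
      simpa using this
    obtain ⟨k, hk⟩ := (hlim2.eventually (gt_mem_nhds (he s))).exists
    refine ⟨k, ?_⟩
    show FIX_Q ρ (e s) (g ^ p ^ k)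
    apply FIX_Q_of ρ (c := c ^ p ^ k)
    have h4 : ρ (g ^ p ^ k) - c ^ p ^ k • (1 : Matrix (Fin 2) (Fin 2) F) =
        c ^ p ^ k • ((c⁻¹ • ρ g) ^ p ^ k - 1) := by
      rw [smul_sub, _root_.smul_pow, smul_smul, inv_pow, mul_inv_cancel₀ (pow_ne_zero _ hc0), one_smul,
        map_pow]
    rw [h4]
    refine FIX_smul (he s).le ?_ (FIX_mono hk.le
      (YA_pow3 p lam (le_max_left _ _) hl1.le hδ0 (le_max_right _ _) _ hA k))
    rw [norm_pow, hc1, one_pow]
  · ext g
    rw [Subgroup.mem_iInf]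
    constructor
    · rintro ⟨c, hc⟩ s
      show FIX_Q ρ (e s) g
      apply FIX_Q_of ρ (c := c)
      rw [hc, sub_self]
      intro a b
      simpa using (he s).le
    · intro hg
      have hz : ∀ x : F, (∀ k, ‖x‖ ≤ e k) → x = 0 := by
        intro x hx
        rw [← norm_eq_zero]
        exact le_antisymm (ge_of_tendsto' hlim hx) (norm_nonneg _)
      have h1 : ρ g 0 1 = 0 := hz _ fun k => (hg k).1
      have h2 : ρ g 1 0 = 0 := hz _ fun k => (hg k).2.1
      have h3 : ρ g 0 0 - ρ g 1 1 = 0 := hz _ fun k => (hg k).2.2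
      have h4 : ρ g 1 1 = ρ g 0 0 := (sub_eq_zero.mp h3).symm
      refine ⟨ρ g 0 0, ?_⟩
      ext a b
      fin_cases a <;> fin_cases b <;> simp [h1, h2, h4]

end Pool.Agent.AX
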