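import Pool.Agent.helper44.AX.SpecA

/-!
# Project AX (MP_2e0e07_nt): the adelic dichotomy, block G: one variety, and the final statement
-/

set_option autoImplicit false

namespace Pool.Agent.AX

open Matrix Polynomial Topology Filter Pool.Agent.GO Pool.Agent.AR Pool.Agent.RG Pool.Agent.HZ
  Pool.Agent.DS Pool.Agent.FLD MeasureTheory NumberField

/-- The residual theorem (proved by helper64 in `Pool/Agent/helper64/AX/RES.lean`). -/
def RES_stmt : Prop := ∀ (p m : ℕ) [Fact p.Prime], 5 ≤ p → 2 * m.factorial + 1 < p →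
  ∀ (Γ : Type) [Group Γ] [TopologicalSpace Γ] [IsTopologicalGroup Γ] [CompactSpace Γ] (κ : Type)
  [Field κ] [IsAlgClosed κ] [CharP κ p] (S : Γ →* Matrix (Fin 2) (Fin 2) κ),
  IsOpen (S.ker : Set Γ) → Irred (fun g => S g) → (∃ g, orderOf (S g) = p) →
  ∀ (M Kp : Subgroup Γ), M.Normal → IsClosed (M : Set Γ) → HasPPart p M Kp →
  ∀ (A : Type) (q : A → ℕ) (K : A → Subgroup Γ),
  (∀ a, (q a).Prime ∧ q a ≠ p ∧ HasLayer (q a) m (K a)) → (∃ g ∈ M, g ∉ adKer S) →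
  ((M ⊓ Kp ⊓ ⨅ a, K a) ⊔ adKer S).index ≠ 0 ∧ ((M ⊓ Kp ⊓ ⨅ a, K a) ⊔ adKer S).index ≤ 2 ∧
    ContainsPSL S (M ⊓ Kp ⊓ ⨅ a, K a)

/-- **Row CRA** (medium): `theorem CRA (hRES : RES_stmt) (hLFT : LFT_stmt) (hYV : YV_stmt)
(hYP : YP_stmt) (hYA : YA_stmt) : CRA_stmt`. Index at most `2` for large `p j`.
Proof. `M` = the common kernel of the `V (p j) i` modulo `p j` (normal; closed: it is open, as a finite
intersection of preimages of `1` under the continuous maps to the finite discrete rings; or as in YV),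
`Kp = kerV (V (p j)) ≤ M`, with `HasPPart (p j) M Kp` by YP. `A = ({q : ℕ // q.Prime ∧ q ≠ p j} × Fin r) ⊕ {k : J // k ≠ j}`,
`K (inl (q, i)) = (V q i).ker`, of residue characteristic `q` (YV, `n i ≤ m`), `K (inr k) = adKer (ρ k)` of residue
characteristic `p k ≠ p j` (YA, injectivity of `p`). Then `Z := M ⊓ Kp ⊓ ⨅ a, K a` is
`kerAll V ⊓ ⨅ k, adKer (ρ k)` (`k ≠ j`): `kerAll V = kerV (V (p j)) ⊓ ⨅ q ≠ p j, ..`. `5 ≤ p j` as `2 * m! + 1 ≥ 13`. RES: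
`(Z ⊔ adKer S).index ≠ 0, ≤ 2`, `ContainsPSL S Z`. `Z` is normal (kernels, `adKer_normal`) and closed (continuity; `adKer (ρ k)` is closed
as the scalar matrices are closed). LFT (`p j ≠ 2`): `adKer S ≤ Z ⊔ adKer (ρ j)`; and `adKer (ρ j) ≤ adKer S` (reduction of a scalar
matrix), so `Z ⊔ adKer (ρ j) = Z ⊔ adKer S`. -/
def CRA_stmt : Prop := ∀ (Γ : Type) [Group Γ] [TopologicalSpace Γ] [IsTopologicalGroup Γ]
  [CompactSpace Γ] (r : ℕ) (n : Fin r → ℕ)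
  (V : (q : ℕ) → [Fact q.Prime] → (i : Fin r) → Γ →* Matrix (Fin (n i)) (Fin (n i)) ℤ_[q]),
  (∀ (q : ℕ) [Fact q.Prime] (i : Fin r), Continuous (V q i)) →
  ∀ (J : Type) (p : J → ℕ) [∀ j, Fact (p j).Prime], Function.Injective p →
  ∀ (F κ : J → Type) [∀ j, NormedField (F j)] [∀ j, NormedAlgebra ℚ_[p j] (F j)]
    [∀ j, FiniteDimensional ℚ_[p j] (F j)] [∀ j, Field (κ j)] [∀ j, IsAlgClosed (κ j)]
    [∀ j, CharP (κ j) (p j)] (red : ∀ j, F j → κ j), (∀ j, IsRed (red j)) →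
  ∀ ρ : (j : J) → Γ →* Matrix (Fin 2) (Fin 2) (F j), (∀ j, Continuous (ρ j)) →
  (∀ j g a b, ‖ρ j g a b‖ ≤ 1) → ∀ m : ℕ, 3 ≤ m → (∀ i, n i ≤ m) →
  ∀ (j : J) (S : Γ →* Matrix (Fin 2) (Fin 2) (κ j)), (∀ g, S g = (ρ j g).map (red j)) →
  2 * m.factorial + 1 < p j → IsOpen (S.ker : Set Γ) → Irred (fun g => S g) →
  (∃ g, orderOf (S g) = p j) →
  (∃ g ∈ kerV (fun i => mapHom (PadicInt.toZMod (p := p j)) (V (p j) i)), g ∉ adKer S) →
  (cross V ρ j).index ≠ 0 ∧ (cross V ρ j).index ≤ 2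

/-- **Row CRB** (short-medium): `theorem CRB (hFIX : FIX_stmt) (hYV : YV_stmt) (hYA : YA_stmt) : CRB_stmt`. Finite index for every `j`. Proof.
FIX with `M = kerV (V (p j))` (normal, closed) and the same `A`, `K`, `q` as in CRA;
`(M ⊓ ⨅ a, K a) ⊔ adKer (ρ j) = cross V ρ j`. -/
def CRB_stmt : Prop := ∀ (Γ : Type) [Group Γ] [TopologicalSpace Γ] [IsTopologicalGroup Γ]
  [CompactSpace Γ] (r : ℕ) (n : Fin r → ℕ)
  (V : (q : ℕ) → [Fact q.Prime] → (i : Fin r) → Γ →* Matrix (Fin (n i)) (Fin (n i)) ℤ_[q]),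
  (∀ (q : ℕ) [Fact q.Prime] (i : Fin r), Continuous (V q i)) →
  ∀ (J : Type) (p : J → ℕ) [∀ j, Fact (p j).Prime], Function.Injective p →
  ∀ (F κ : J → Type) [∀ j, NormedField (F j)] [∀ j, NormedAlgebra ℚ_[p j] (F j)]
    [∀ j, FiniteDimensional ℚ_[p j] (F j)] [∀ j, Field (κ j)] [∀ j, IsAlgClosed (κ j)]
    [∀ j, CharP (κ j) (p j)] (red : ∀ j, F j → κ j), (∀ j, IsRed (red j)) →
  ∀ ρ : (j : J) → Γ →* Matrix (Fin 2) (Fin 2) (F j), (∀ j, Continuous (ρ j)) →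
  (∀ j g a b, ‖ρ j g a b‖ ≤ 1) →
  ∀ (j : J) (Ω : Type) [Field Ω] [IsAlgClosed Ω] [CharZero Ω] [Algebra (F j) Ω],
  SI (bc (algebraMap (F j) Ω) (ρ j)) → (kerV (V (p j)) ⊔ adKer (ρ j)).FiniteIndex →
  (cross V ρ j).FiniteIndex

/-- **Row PRD** (short-medium; compactness). Proof. For every `j` choose `z j ∈ kerAll V`, `z j ∈ adKer (ρ k)` for
`k ≠ j`, with `(z j)⁻¹ * g j ∈ adKer (ρ j)` (`Subgroup.mem_sup_of_normal_right`, `adKer` normal). The sets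
`H j = {h | h ∈ kerAll V ∧ h⁻¹ * g j ∈ adKer (ρ j)}` are closed (`kerAll V` is an intersection of kernels of continuous homomorphisms,
`adKer (ρ j)` is closed: `g ∈ adKer ρ ↔ ρ g 0 1 = 0 ∧ ρ g 1 0 = 0 ∧ ρ g 0 0 = ρ g 1 1`). For a finite set `A` of indices the
product `h` of the `z j`, `j ∈ A`, in any order (`List.prod` of a list of `A` without duplicates) is in `H j` for `j ∈ A`: modulo the normal subgroup
`adKer (ρ j)` it is equal to `z j`. `IsCompact.inter_iInter_nonempty` or `CompactSpace.iInter_nonempty`. -/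
def PRD_stmt : Prop := ∀ (Γ : Type) [Group Γ] [TopologicalSpace Γ] [IsTopologicalGroup Γ]
  [CompactSpace Γ] (r : ℕ) (n : Fin r → ℕ)
  (V : (q : ℕ) → [Fact q.Prime] → (i : Fin r) → Γ →* Matrix (Fin (n i)) (Fin (n i)) ℤ_[q]),
  (∀ (q : ℕ) [Fact q.Prime] (i : Fin r), Continuous (V q i)) →
  ∀ (J : Type) (F : J → Type) [∀ j, NormedField (F j)]
    (ρ : (j : J) → Γ →* Matrix (Fin 2) (Fin 2) (F j)), (∀ j, Continuous (ρ j)) →
  ∀ g : J → Γ, (∀ j, g j ∈ cross V ρ j) → ∃ h ∈ kerAll V, ∀ j, h⁻¹ * g j ∈ adKer (ρ j)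

/-- The homomorphism `ℤ_[p] → F → Ω`. -/
noncomputable def padicTo (p : ℕ) [Fact p.Prime] (F Ω : Type) [NormedField F]
    [NormedAlgebra ℚ_[p] F] [Field Ω] [Algebra F Ω] : ℤ_[p] →+* Ω :=
  (algebraMap F Ω).comp ((algebraMap ℚ_[p] F).comp PadicInt.Coe.ringHom)

/-- **The final statement (I): AdelicDichotomy.** -/
def MAIN1_stmt : Prop := ∀ {Γ Place E : Type} [Group Γ] [TopologicalSpace Γ] [IsTopologicalGroup Γ]
    [CompactSpace Γ] [MeasurableSpace Γ] [BorelSpace Γ] (μ : Measure Γ) [μ.IsHaarMeasure]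
    (frob : Place → Set Γ) (_ : DenseIn frob ⊤ Set.univ) [Field E] [NumberField E]
    {r : ℕ} {n : Fin r → ℕ} {I J : Type} [Infinite J]
    (P : I → Fin r → Place → ℤ[X]) (Q : Place → E[X])
    (i₀ : Fin r) (_ : ∀ x v, (P x i₀ v).map (Int.castRingHom E) = X - C ((Q v).coeff 0))
    (T₁ : Set Place) (_ : T₁.Finite)
    (_ : (Set.range fun x => fun v : {v : Place // v ∉ T₁} => fun i => P x i v.1).Finite ∨
      HasBoundedRealisations frob n (fun x i v => (P x i v).map (Int.castRingHom E)) T₁)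
    (V : I → (q : ℕ) → [Fact q.Prime] → (i : Fin r) →
      Γ →* Matrix (Fin (n i)) (Fin (n i)) ℤ_[q])
    (_ : ∀ (x : I) (q : ℕ) [Fact q.Prime] (i : Fin r), Continuous (V x q i))
    (_ : ∀ (x : I) (q : ℕ) [Fact q.Prime], ∃ T : Set Place, T.Finite ∧
      ∀ v ∉ T, ∀ s ∈ frob v, ∀ i, (V x q i s).charpoly = (P x i v).map (Int.castRingHom ℤ_[q]))
    (p : J → ℕ) [∀ j, Fact (p j).Prime] (_ : Function.Injective p)
    (F Ω κ : J → Type) [∀ j, NormedField (F j)] [∀ j, NormedAlgebra ℚ_[p j] (F j)]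
    [∀ j, FiniteDimensional ℚ_[p j] (F j)] [∀ j, Field (Ω j)] [∀ j, IsAlgClosed (Ω j)]
    [∀ j, CharZero (Ω j)] [∀ j, Algebra (F j) (Ω j)] [∀ j, TopologicalSpace (Ω j)]
    [∀ j, IsTopologicalRing (Ω j)] [∀ j, T2Space (Ω j)]
    [∀ j, Field (κ j)] [∀ j, IsAlgClosed (κ j)] [∀ j, CharP (κ j) (p j)]
    (ι : ∀ j, E →+* F j) (red : ∀ j, F j → κ j) (_ : ∀ j, IsRed (red j))
    (ρ : ∀ j, Γ →* Matrix (Fin 2) (Fin 2) (F j)) (_ : ∀ j, Continuous (ρ j))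
    (_ : ∀ j g a b, ‖ρ j g a b‖ ≤ 1)
    (_ : ∀ x j, IsRealisation frob (fun i v => (P x i v).map (Int.castRingHom E)) Q
      ((algebraMap (F j) (Ω j)).comp (ι j)) (fun i => mapHom (padicTo (p j) (F j) (Ω j)) (V x (p j) i))
      (bc (algebraMap (F j) (Ω j)) (ρ j)))
    (S : ∀ j, Γ →* Matrix (Fin 2) (Fin 2) (κ j)) (_ : ∀ j g, S j g = (ρ j g).map (red j))
    (J₀ : Set J) (_ : J₀.Finite) (φ : ∀ j, 𝓞 E →+* κ j)
    (_ : IsResidualFam frob
      (fun (y : I × {j : J // j ∉ J₀}) i v => (P y.1 i v).map (Int.castRingHom E)) Q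
      (fun y => p y.2.1) (fun y => κ y.2.1) (fun y => φ y.2.1)
      (fun y i => mapHom (PadicInt.toZMod (p := p y.2.1)) (V y.1 (p y.2.1) i)) (fun y => S y.2.1)),
    ∃ C : ℕ, ∀ x : I,
      (AllArise.{0} μ frob n (fun i v => (P x i v).map (Int.castRingHom E)) Q ∧
        (∀ j, j ∉ J₀ →
          adDegree (fun i => mapHom (PadicInt.toZMod (p := p j)) (V x (p j) i)) (S j) ≤ C) ∧
        ∀ j, (kerV (V x (p j)) ⊔ adKer (ρ j)).index = 0) ∨
      (NoneArises.{0} μ frob n (fun i v => (P x i v).map (Int.castRingHom E)) Q ∧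
        (∀ j, (cross (V x) ρ j).index ≠ 0 ∧ (C < p j → (cross (V x) ρ j).index ≤ 2)) ∧
        ∀ g : J → Γ, (∀ j, g j ∈ cross (V x) ρ j) →
          ∃ h ∈ kerAll (V x), ∀ j, h⁻¹ * g j ∈ adKer (ρ j))

/-- **The final statement (II): CongruenceCriterion.** -/
def MAIN2_stmt : Prop := ∀ {Γ Place E : Type} [Group Γ] [TopologicalSpace Γ] [IsTopologicalGroup Γ]
    [CompactSpace Γ] [MeasurableSpace Γ] [BorelSpace Γ] (μ : Measure Γ) [μ.IsHaarMeasure]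
    (frob : Place → Set Γ) (_ : DenseIn frob ⊤ Set.univ) [Field E] [NumberField E]
    {r : ℕ} {n : Fin r → ℕ} (P : Fin r → Place → ℤ[X]) (Q : Place → E[X])
    (q : Place → ℕ) (s : ℕ) (w : Fin r → ℕ) (O : Set Place)
    (_ : IsGoodSet μ frob n (fun i v => (P i v).map (Int.castRingHom E)) Q q s w O)
    (V : (q : ℕ) → [Fact q.Prime] → (i : Fin r) → Γ →* Matrix (Fin (n i)) (Fin (n i)) ℤ_[q])
    (_ : ∀ (q : ℕ) [Fact q.Prime] (i : Fin r), Continuous (V q i))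
    (_ : ∀ (q : ℕ) [Fact q.Prime], ∃ T : Set Place, T.Finite ∧
      ∀ v ∉ T, ∀ s ∈ frob v, ∀ i, (V q i s).charpoly = (P i v).map (Int.castRingHom ℤ_[q]))
    (p : ℕ) [Fact p.Prime] (F Ω : Type) [NormedField F] [NormedAlgebra ℚ_[p] F]
    [FiniteDimensional ℚ_[p] F] [Field Ω] [IsAlgClosed Ω] [CharZero Ω] [Algebra F Ω]
    [TopologicalSpace Ω] [IsTopologicalRing Ω] [T2Space Ω] (ι : E →+* F)
    (ρ : Γ →* Matrix (Fin 2) (Fin 2) F) (_ : Continuous ρ) (_ : ∀ g a b, ‖ρ g a b‖ ≤ 1)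
    (_ : IsRealisation frob (fun i v => (P i v).map (Int.castRingHom E)) Q
      ((algebraMap F Ω).comp ι) (fun i => mapHom (padicTo p F Ω) (V p i))
      (bc (algebraMap F Ω) ρ)),
    List.TFAE [
      Determined μ frob P Q ι,
      (kerAll V ⊔ adKer ρ).index = 0,
      Arises (fun i => mapHom (padicTo p F Ω) (V p i)) (bc (algebraMap F Ω) ρ),
      ∀ (F' : Type) [Field F'] [IsAlgClosed F'] [CharZero F'] [TopologicalSpace F']
        [IsTopologicalRing F'] [T2Space F'] (ι' : E →+* F')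
        (V' : (i : Fin r) → Γ →* Matrix (Fin (n i)) (Fin (n i)) F')
        (ρ' : Γ →* Matrix (Fin 2) (Fin 2) F'),
        IsRealisation frob (fun i v => (P i v).map (Int.castRingHom E)) Q ι' V' ρ' →
        Arises V' ρ']

end Pool.Agent.AX
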